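import Pool.Agent.Lib.MP_46d37e_an.Ent

/-!
# Approximation of finite partitions
-/

set_option autoImplicit false

namespace Pool.Agent.Lib.MP_46d37e_an

open MeasureTheory Filter Topology
open scoped ENNReal symmDiff

section approx_aux

variable {Ω : Type*} [mΩ : MeasurableSpace Ω] (μ : Measure Ω) [IsProbabilityMeasure μ]

theorem approx_hFP_eq {ι : Type*} [Finite ι] (P : FP Ω) (b : Ω → ι) (h : sg b = P.1) :
    hFP μ P = ent μ b :=
  ent_congr μ _ _ (P.2.2.choose_spec.choose_spec.trans h.symm)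

theorem approx_iSup_le (m : ℕ → FP Ω) : (⨆ n, (m n).1) ≤ mΩ := iSup_le fun n => (m n).2.1

/-- sets of the limit sigma-algebra are approximated by sets of the finite ones -/
theorem approx_sets (m : ℕ → FP Ω) (hm : Monotone m) (E : Set Ω)
    (hE : MeasurableSet[⨆ n, (m n).1] E) :
    ∀ ε : ℝ, 0 < ε → ∃ (n : ℕ) (S : Set Ω), MeasurableSet[(m n).1] S ∧ μ.real (E ∆ S) < ε := by
  have hle := approx_iSup_le m
  rw [MeasurableSpace.measurableSet_iSup] at hE
  induction hE with
  | basic u hu =>
    obtain ⟨n, hn⟩ := hu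
    intro ε hε
    exact ⟨n, u, hn, by simpa using hε⟩
  | empty =>
    intro ε hε
    exact ⟨0, ∅, @MeasurableSet.empty _ (m 0).1, by simpa using hε⟩
  | compl t _ ih =>
    intro ε hε
    obtain ⟨n, S, hS, h⟩ := ih ε hε
    refine ⟨n, Sᶜ, @MeasurableSet.compl _ _ (m n).1 hS, ?_⟩
    rwa [compl_symmDiff_compl]
  | iUnion f hf ih =>
    intro ε hε
    have hfm : ∀ i, MeasurableSet (f i) := fun i => by
      have : MeasurableSet[⨆ n, (m n).1] (f i) := by
        rw [MeasurableSpace.measurableSet_iSup]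
        exact hf i
      exact hle _ this
    have ht : Tendsto (fun N => μ.real (Set.accumulate f N)) atTop (𝓝 (μ.real (⋃ i, f i))) := by
      have := tendsto_measure_iUnion_accumulate (μ := μ) (f := f)
      exact (ENNReal.tendsto_toReal (measure_ne_top μ _)).comp this
    obtain ⟨N, hN⟩ := (ht.eventually (lt_mem_nhds (show μ.real (⋃ i, f i) - ε / 2 <
      μ.real (⋃ i, f i) by linarith))).exists
    have hε' : 0 < ε / (2 * ((N : ℝ) + 1)) := by positivity
    choose n S hS h using fun i => ih i _ hε'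
    refine ⟨(Finset.range (N + 1)).sup n, ⋃ i ∈ Finset.range (N + 1), S i, ?_, ?_⟩
    · refine @MeasurableSet.biUnion _ _ (m ((Finset.range (N + 1)).sup n)).1 _ _
        (Finset.countable_toSet _) fun i hi => ?_
      exact (hm (Finset.le_sup (f := n) hi) : m (n i) ≤ _) _ (hS i)
    · have hacc : MeasurableSet (Set.accumulate f N) := by
        rw [Set.accumulate_def]
        exact MeasurableSet.iUnion fun i => MeasurableSet.iUnion fun _ => hfm i
      have hsub : Set.accumulate f N ⊆ ⋃ i, f i := Set.accumulate_subset_iUnion N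
      have h1 : μ.real ((⋃ i, f i) \ Set.accumulate f N) < ε / 2 := by
        rw [measureReal_sdiff hsub hacc]
        linarith
      have h2 : (⋃ i, f i) ∆ (⋃ i ∈ Finset.range (N + 1), S i) ⊆
          ((⋃ i, f i) \ Set.accumulate f N) ∪ ⋃ i ∈ Finset.range (N + 1), (f i ∆ S i) := by
        intro x hx
        rw [Set.mem_symmDiff] at hx
        rcases hx with ⟨hx1, hx2⟩ | ⟨hx1, hx2⟩
        · by_cases hxa : x ∈ Set.accumulate f N
          · right
            rw [Set.mem_accumulate] at hxa
            obtain ⟨i, hi, hxi⟩ := hxa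
            have hi' : i ∈ Finset.range (N + 1) := Finset.mem_range.2 (Nat.lt_succ_of_le hi)
            refine Set.mem_biUnion hi' ?_
            rw [Set.mem_symmDiff]
            left
            refine ⟨hxi, fun h => hx2 (Set.mem_biUnion hi' h)⟩
          · left
            exact ⟨hx1, hxa⟩
        · right
          simp only [Set.mem_iUnion] at hx1
          obtain ⟨i, hi, hxi⟩ := hx1
          refine Set.mem_biUnion hi ?_
          rw [Set.mem_symmDiff]
          right
          exact ⟨hxi, fun h => hx2 (Set.mem_iUnion.2 ⟨i, h⟩)⟩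
      have h3 : μ.real (⋃ i ∈ Finset.range (N + 1), (f i ∆ S i)) ≤ ε / 2 := by
        refine (measureReal_biUnion_finset_le _ _).trans ?_
        calc ∑ i ∈ Finset.range (N + 1), μ.real (f i ∆ S i)
            ≤ ∑ _i ∈ Finset.range (N + 1), ε / (2 * ((N : ℝ) + 1)) :=
              Finset.sum_le_sum fun i _ => (h i).le
          _ = ε / 2 := by
              rw [Finset.sum_const, Finset.card_range, nsmul_eq_mul]
              push_cast
              field_simp
      calc μ.real ((⋃ i, f i) ∆ (⋃ i ∈ Finset.range (N + 1), S i))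
          ≤ μ.real (((⋃ i, f i) \ Set.accumulate f N) ∪
              ⋃ i ∈ Finset.range (N + 1), (f i ∆ S i)) := measureReal_mono h2
        _ ≤ μ.real ((⋃ i, f i) \ Set.accumulate f N) +
              μ.real (⋃ i ∈ Finset.range (N + 1), (f i ∆ S i)) := measureReal_union_le _ _
        _ < ε := by linarith

/-- continuity of the conditional entropy -/
theorem approx_ent_pair (k : ℕ) {δ : ℝ} (hδ : 0 < δ) :
    ∃ η : ℝ, 0 < η ∧ ∀ a a' : Ω → Fin k, μ.real {x | a x ≠ a' x} < η →
      |ent μ (fun x => (a x, a' x)) - ent μ a'| < δ := by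
  have hε : 0 < δ / ((k : ℝ) * k + 1) := by positivity
  have huc := isCompact_Icc.uniformContinuousOn_of_continuous
    (s := Set.Icc (0 : ℝ) 1) (Real.continuous_negMulLog.continuousOn)
  rw [Metric.uniformContinuousOn_iff] at huc
  obtain ⟨η, hη, H⟩ := huc _ hε
  refine ⟨η, hη, fun a a' h => ?_⟩
  have h01 : ∀ s : Set Ω, μ.real s ∈ Set.Icc (0 : ℝ) 1 := fun s =>
    ⟨measureReal_nonneg, measureReal_le_one⟩
  have key : ∀ i j : Fin k, |Real.negMulLog (μ.real ((fun x => (a x, a' x)) ⁻¹' {(i, j)})) -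
      (if i = j then Real.negMulLog (μ.real (a' ⁻¹' {j})) else 0)| < δ / ((k : ℝ) * k + 1) := by
    intro i j
    by_cases hij : i = j
    · subst hij
      rw [if_pos rfl, ← Real.dist_eq]
      refine H _ (h01 _) _ (h01 _) ?_
      rw [Real.dist_eq, abs_sub_comm, abs_lt]
      have h1 : (fun x => (a x, a' x)) ⁻¹' {(i, i)} ⊆ a' ⁻¹' {i} := by
        intro x hx
        exact (Prod.ext_iff.1 (show (a x, a' x) = (i, i) from hx)).2
      have h2 : a' ⁻¹' {i} ⊆ ((fun x => (a x, a' x)) ⁻¹' {(i, i)}) ∪ {x | a x ≠ a' x} := by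
        intro x hx
        have hx' : a' x = i := hx
        by_cases hax : a x = a' x
        · left
          show (a x, a' x) = (i, i)
          rw [hax, hx']
        · right
          exact hax
      have h3 := measureReal_mono (μ := μ) h1
      have h4 := (measureReal_mono (μ := μ) h2).trans (measureReal_union_le _ _)
      constructor <;> linarith
    · rw [if_neg hij, ← Real.negMulLog_zero, ← Real.dist_eq]
      refine H _ (h01 _) _ ⟨le_rfl, zero_le_one⟩ ?_
      rw [Real.dist_eq, sub_zero, abs_of_nonneg measureReal_nonneg]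
      refine lt_of_le_of_lt (measureReal_mono ?_) h
      intro x hx
      have hx' := Prod.ext_iff.1 (show (a x, a' x) = (i, j) from hx)
      show a x ≠ a' x
      intro hc
      exact hij (hx'.1.symm.trans (hc.trans hx'.2))
  have hdiff : ent μ (fun x => (a x, a' x)) - ent μ a' = ∑ i : Fin k, ∑ j : Fin k,
      (Real.negMulLog (μ.real ((fun x => (a x, a' x)) ⁻¹' {(i, j)})) -
      (if i = j then Real.negMulLog (μ.real (a' ⁻¹' {j})) else 0)) := by
    rw [ent_eq_sum, ent_eq_sum, Fintype.sum_prod_type]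
    simp only [Finset.sum_sub_distrib]
    congr 1
    refine Finset.sum_congr rfl fun i _ => ?_
    rw [Finset.sum_ite_eq]
    simp
  rw [hdiff]
  calc |∑ i : Fin k, ∑ j : Fin k, (Real.negMulLog (μ.real ((fun x => (a x, a' x)) ⁻¹' {(i, j)})) -
      (if i = j then Real.negMulLog (μ.real (a' ⁻¹' {j})) else 0))|
      ≤ ∑ i : Fin k, ∑ j : Fin k,
        |(Real.negMulLog (μ.real ((fun x => (a x, a' x)) ⁻¹' {(i, j)})) -
      (if i = j then Real.negMulLog (μ.real (a' ⁻¹' {j})) else 0))| :=
        (Finset.abs_sum_le_sum_abs _ _).trans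
          (Finset.sum_le_sum fun i _ => Finset.abs_sum_le_sum_abs _ _)
    _ ≤ ∑ _i : Fin k, ∑ _j : Fin k, δ / ((k : ℝ) * k + 1) :=
        Finset.sum_le_sum fun i _ => Finset.sum_le_sum fun j _ => (key i j).le
    _ = (k : ℝ) * k * (δ / ((k : ℝ) * k + 1)) := by
        simp only [Finset.sum_const, Finset.card_univ, Fintype.card_fin, nsmul_eq_mul]
        ring
    _ < δ := by
        have hk : (0 : ℝ) < (k : ℝ) * k + 1 := by positivity
        rw [mul_div_assoc', div_lt_iff₀ hk]
        nlinarith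

theorem approx_ent_swap {k : ℕ} (a a' : Ω → Fin k) :
    ent μ (fun x => (a x, a' x)) = ent μ (fun x => (a' x, a x)) := by
  apply ent_congr
  rw [sg_prod, sg_prod, sup_comm]

end approx_aux

variable {Ω : Type*} {𝓖 : MeasurableSpace Ω} [mΩ : MeasurableSpace Ω] (μ : Measure Ω)
  [IsProbabilityMeasure μ]

/-- If the increasing sequence of finite sigma-algebras `m n` generates the sigma-algebra
`𝓖` modulo null sets, every finite sub-sigma-algebra of `𝓖` can be approximated. -/
theorem exists_approx (h𝓖 : 𝓖 ≤ mΩ) (m : ℕ → FP Ω) (hm : Monotone m)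
    (hgen : ∀ E : Set Ω, MeasurableSet[𝓖] E → ∃ E' : Set Ω,
      MeasurableSet[⨆ n, (m n).1] E' ∧ μ (E ∆ E') = 0)
    (A : FP Ω) (hA : A.1 ≤ 𝓖) {δ : ℝ} (hδ : 0 < δ) :
    ∃ (n : ℕ) (A' : FP Ω), A' ≤ m n ∧ cnd (hFP μ) A A' < δ ∧ cnd (hFP μ) A' A < δ := by
  obtain ⟨hAm, k, a, ha⟩ := A.2
  obtain ⟨η, hη, Hη⟩ := approx_ent_pair μ k hδ
  have hne : Nonempty Ω := by
    by_contra hc
    rw [not_nonempty_iff] at hc
    have h1 := measure_univ (μ := μ)
    rw [Set.univ_eq_empty_iff.2 hc, measure_empty] at h1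
    exact zero_ne_one h1
  obtain ⟨x₀⟩ := hne
  have hε : 0 < η / ((k : ℝ) + 1) := by positivity
  have h1 : ∀ i : Fin k, ∃ (n : ℕ) (S : Set Ω), MeasurableSet[(m n).1] S ∧
      μ.real ((a ⁻¹' {i}) ∆ S) < η / ((k : ℝ) + 1) := by
    intro i
    have hi : MeasurableSet[𝓖] (a ⁻¹' {i}) := by
      apply hA
      rw [← ha]
      exact ⟨{i}, trivial, rfl⟩
    obtain ⟨E', hE', hz⟩ := hgen _ hi
    obtain ⟨n, S, hS, hlt⟩ := approx_sets μ m hm E' hE' _ hε
    refine ⟨n, S, hS, lt_of_le_of_lt ?_ hlt⟩
    have h2 : (a ⁻¹' {i}) ∆ S ⊆ ((a ⁻¹' {i}) ∆ E') ∪ (E' ∆ S) := symmDiff_triangle _ _ _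
    refine (measureReal_mono h2).trans ((measureReal_union_le _ _).trans ?_)
    have h3 : μ.real ((a ⁻¹' {i}) ∆ E') = 0 := by
      rw [measureReal_def, hz]
      rfl
    rw [h3, zero_add]
  choose n S hS hlt using h1
  set N := Finset.univ.sup n with hN
  have hSN : ∀ i, MeasurableSet[(m N).1] (S i) := fun i =>
    (hm (Finset.le_sup (f := n) (Finset.mem_univ i)) : m (n i) ≤ m N) _ (hS i)
  classical
  let F : (Fin k → Prop) → Fin k := fun v => if h : ∃ i, v i then h.choose else a x₀
  let V : Ω → (Fin k → Prop) := fun x i => x ∈ S i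
  let a' : Ω → Fin k := fun x => F (V x)
  have hV : sg V ≤ (m N).1 := by
    rintro s ⟨t, -, rfl⟩
    have hs : V ⁻¹' t = ⋃ v ∈ t, ⋂ i : Fin k, (if v i then S i else (S i)ᶜ) := by
      ext x
      simp only [Set.mem_preimage, Set.mem_iUnion, Set.mem_iInter, exists_prop]
      constructor
      · intro hx
        refine ⟨V x, hx, fun i => ?_⟩
        by_cases hxi : V x i
        · rw [if_pos hxi]; exact hxi
        · rw [if_neg hxi]; exact hxi
      · rintro ⟨v, hv, h⟩
        have : V x = v := by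
          funext i
          have hi := h i
          by_cases hvi : v i
          · rw [if_pos hvi] at hi
            exact propext ⟨fun _ => hvi, fun _ => hi⟩
          · rw [if_neg hvi] at hi
            exact propext ⟨fun h' => absurd h' hi, fun h' => absurd h' hvi⟩
        rwa [this]
    rw [hs]
    refine @MeasurableSet.biUnion _ _ (m N).1 _ _ (Set.to_countable t) fun v _ => ?_
    refine @MeasurableSet.iInter _ _ (m N).1 _ _ fun i => ?_
    by_cases hvi : v i
    · rw [if_pos hvi]; exact hSN i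
    · rw [if_neg hvi]; exact @MeasurableSet.compl _ _ (m N).1 (hSN i)
  have ha' : sg a' ≤ (m N).1 := by
    refine le_trans ?_ hV
    rintro s ⟨t, -, rfl⟩
    exact ⟨F ⁻¹' t, trivial, rfl⟩
  have hmeas : μ.real {x | a x ≠ a' x} < η := by
    have hsub : {x | a x ≠ a' x} ⊆ ⋃ i ∈ (Finset.univ : Finset (Fin k)), ((a ⁻¹' {i}) ∆ (S i)) := by
      intro x hx
      by_contra hc
      apply hx
      have hall : ∀ i, (a x = i ↔ x ∈ S i) := by
        intro i
        by_contra hi
        apply hc
        refine Set.mem_biUnion (Finset.mem_univ i) ?_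
        rw [Set.mem_symmDiff]
        show (a x = i ∧ x ∉ S i) ∨ (x ∈ S i ∧ ¬ a x = i)
        tauto
      have hex : ∃ i, V x i := ⟨a x, (hall (a x)).1 rfl⟩
      have : a' x = hex.choose := dif_pos hex
      rw [this]
      exact (hall _).2 hex.choose_spec
    refine lt_of_le_of_lt ((measureReal_mono hsub (measure_ne_top _ _)).trans
      (measureReal_biUnion_finset_le _ _)) ?_
    calc ∑ i : Fin k, μ.real ((a ⁻¹' {i}) ∆ (S i)) ≤ ∑ _i : Fin k, η / ((k : ℝ) + 1) :=
          Finset.sum_le_sum fun i _ => (hlt i).le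
      _ = (k : ℝ) * (η / ((k : ℝ) + 1)) := by
          simp only [Finset.sum_const, Finset.card_univ, Fintype.card_fin, nsmul_eq_mul]
      _ < η := by
          have hk : (0 : ℝ) < (k : ℝ) + 1 := by positivity
          rw [mul_div_assoc', div_lt_iff₀ hk]
          nlinarith
  have hmeas' : μ.real {x | a' x ≠ a x} < η := by
    have : {x | a' x ≠ a x} = {x | a x ≠ a' x} := by
      ext x
      exact ne_comm
    rwa [this]
  let A' : FP Ω := ⟨sg a', ha'.trans (m N).2.1, k, a', rfl⟩
  refine ⟨N, A', ha', ?_, ?_⟩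
  · have e1 : hFP μ (A ⊔ A') = ent μ (fun x => (a x, a' x)) := by
      apply approx_hFP_eq
      rw [sg_prod, ha]
      rfl
    have e2 : hFP μ A' = ent μ a' := approx_hFP_eq μ A' a' rfl
    rw [cnd, e1, e2]
    exact (abs_lt.1 (Hη a a' hmeas)).2
  · have e1 : hFP μ (A' ⊔ A) = ent μ (fun x => (a' x, a x)) := by
      apply approx_hFP_eq
      rw [sg_prod, ha]
      rfl
    have e2 : hFP μ A = ent μ a := approx_hFP_eq μ A a ha
    rw [cnd, e1, e2]
    exact (abs_lt.1 (Hη a' a hmeas')).2

end Pool.Agent.Lib.MP_46d37e_an
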