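import Pool.Agent.Lib.MP_46d37e_an.Ent

/-!
# Balls in the free group: the literal definitions and the semilattice of partitions
-/

set_option autoImplicit false

namespace Pool.Agent.Lib.MP_46d37e_an

open MeasureTheory Filter Topology
open scoped ENNReal symmDiff

theorem finite_ball (r n : ℕ) : Finite {g : FreeGroup (Fin r) // g.norm ≤ n} := by
  have hfin : {l : List (Fin r × Bool) | l.length ≤ n}.Finite := List.finite_length_le _ _
  haveI : Finite {l : List (Fin r × Bool) | l.length ≤ n} := hfin
  refine Finite.of_injective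
    (fun g : {g : FreeGroup (Fin r) // g.norm ≤ n} =>
      (⟨g.1.toWord, g.2⟩ : {l : List (Fin r × Bool) | l.length ≤ n})) ?_
  intro g g' h
  apply Subtype.ext
  exact FreeGroup.toWord_injective (Subtype.ext_iff.1 h)

theorem ball_sg_pi {Ω κ ι : Type*} [Finite κ] [Finite ι] (f : Ω → (κ → ι)) :
    sg f = ⨆ j, sg (fun x => f x j) := by
  apply le_antisymm
  · rintro s ⟨t, -, rfl⟩
    have hs : f ⁻¹' t = ⋃ v ∈ t, ⋂ j : κ, ((fun x => f x j) ⁻¹' {v j}) := by
      ext x
      simp only [Set.mem_preimage, Set.mem_iUnion, Set.mem_iInter, Set.mem_singleton_iff,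
        exists_prop]
      constructor
      · intro hx
        exact ⟨f x, hx, fun j => rfl⟩
      · rintro ⟨v, hv, h⟩
        have : f x = v := funext h
        rwa [this]
    rw [hs]
    refine MeasurableSet.biUnion (Set.to_countable t) fun v _ => ?_
    refine MeasurableSet.iInter fun j => ?_
    exact (le_iSup (fun j => sg (fun x => f x j)) j) _ ⟨{v j}, trivial, rfl⟩
  · refine iSup_le fun j => ?_
    rintro s ⟨t, -, rfl⟩
    exact ⟨(fun v => v j) ⁻¹' t, trivial, rfl⟩

variable {r : ℕ} {X : Type*} [mX : MeasurableSpace X] [MulAction (FreeGroup (Fin r)) X]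
  [MeasurableConstSMul (FreeGroup (Fin r)) X]

omit mX [MeasurableConstSMul (FreeGroup (Fin r)) X] in
theorem ball_sg_ballJoin {ι : Type*} [Finite ι] (α : X → ι) (n : ℕ) :
    sg (ballJoin (r := r) n α) =
      ⨆ g : {g : FreeGroup (Fin r) // g.norm ≤ n}, sg (trans g.1 α) := by
  haveI := finite_ball r n
  exact ball_sg_pi _

omit mX [MeasurableConstSMul (FreeGroup (Fin r)) X] in
theorem ball_comap_trans {ι : Type*} (α : X → ι) (g h : FreeGroup (Fin r)) :
    MeasurableSpace.comap (fun x => g⁻¹ • x) (sg (trans h α)) = sg (trans (g * h) α) := by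
  rw [sg, MeasurableSpace.comap_comp]
  congr 1
  funext x
  simp only [trans, Function.comp]
  rw [mul_inv_rev, mul_smul]

theorem ball_stp_val (P : FP X) :
    (stp r P).1 = P.1 ⊔ ⨆ i : Fin r, (FreeGroup.of i • P).1 ⊔ ((FreeGroup.of i)⁻¹ • P).1 := by
  rw [stp, FP.sup_val]
  congr 1
  have h := Finset.apply_sup_eq_sup_comp (s := (Finset.univ : Finset (Fin r)))
    (f := fun i : Fin r => FreeGroup.of i • P ⊔ (FreeGroup.of i)⁻¹ • P)
    (g := fun Q : FP X => Q.1) (fun _ _ => rfl) rfl
  rw [Finset.sup_univ_eq_iSup] at h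
  exact h

theorem ball_pw_val_aux {ι : Type*} [Finite ι] (α : X → ι) (hα : sg α ≤ mX) (n : ℕ) :
    (pw r n (mkFP α hα)).1 =
      ⨆ g : {g : FreeGroup (Fin r) // g.norm ≤ n}, sg (trans g.1 α) := by
  induction n with
  | zero =>
    apply le_antisymm
    · refine le_trans ?_ (le_iSup (fun g : {g : FreeGroup (Fin r) // g.norm ≤ 0} =>
        sg (trans g.1 α)) ⟨1, by simp⟩)
      show sg α ≤ sg (trans 1 α)
      have : trans (1 : FreeGroup (Fin r)) α = α := by
        funext x
        simp [trans]
      rw [this]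
    · refine iSup_le fun g => ?_
      have hg : g.1 = 1 := FreeGroup.norm_eq_zero.1 (Nat.le_zero.1 g.2)
      have : trans g.1 α = α := by
        funext x
        simp [trans, hg]
      rw [this]
      exact le_rfl
  | succ n ih =>
    have key : ∀ s : FreeGroup (Fin r), (s • pw r n (mkFP α hα)).1 =
        ⨆ g : {g : FreeGroup (Fin r) // g.norm ≤ n}, sg (trans (s * g.1) α) := by
      intro s
      rw [FP.smul_val, ih, MeasurableSpace.comap_iSup]
      exact iSup_congr fun g => ball_comap_trans α s g.1
    have hnorm : ∀ (s : FreeGroup (Fin r)), s.norm = 1 →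
        ∀ g : {g : FreeGroup (Fin r) // g.norm ≤ n}, (s * g.1).norm ≤ n + 1 := by
      intro s hs g
      refine (FreeGroup.norm_mul_le _ _).trans ?_
      rw [hs, Nat.add_comm]
      exact Nat.add_le_add_right g.2 1
    show (stp r (pw r n (mkFP α hα))).1 = _
    rw [ball_stp_val]
    apply le_antisymm
    · refine sup_le ?_ (iSup_le fun i => sup_le ?_ ?_)
      · rw [ih]
        refine iSup_le fun g => ?_
        exact le_iSup (fun g : {g : FreeGroup (Fin r) // g.norm ≤ n + 1} => sg (trans g.1 α))
          ⟨g.1, g.2.trans (Nat.le_succ n)⟩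
      · rw [key]
        refine iSup_le fun g => ?_
        exact le_iSup (fun g : {g : FreeGroup (Fin r) // g.norm ≤ n + 1} => sg (trans g.1 α))
          ⟨FreeGroup.of i * g.1, hnorm _ (FreeGroup.norm_of i) g⟩
      · rw [key]
        refine iSup_le fun g => ?_
        exact le_iSup (fun g : {g : FreeGroup (Fin r) // g.norm ≤ n + 1} => sg (trans g.1 α))
          ⟨(FreeGroup.of i)⁻¹ * g.1,
            hnorm _ (by rw [FreeGroup.norm_inv_eq]; exact FreeGroup.norm_of i) g⟩
    · refine iSup_le fun g => ?_
      obtain ⟨g, hg⟩ := g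
      show sg (trans g α) ≤ _
      cases hw : g.toWord with
      | nil =>
        have hg1 : g.norm ≤ n := by
          rw [FreeGroup.norm, hw]
          exact Nat.zero_le _
        refine le_trans ?_ le_sup_left
        rw [ih]
        exact le_iSup (fun g : {g : FreeGroup (Fin r) // g.norm ≤ n} => sg (trans g.1 α)) ⟨g, hg1⟩
      | cons p w =>
        obtain ⟨i, b⟩ := p
        have hlen : (FreeGroup.mk w).norm ≤ n := by
          refine FreeGroup.norm_mk_le.trans ?_
          have : g.norm = w.length + 1 := by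
            rw [FreeGroup.norm, hw]
            rfl
          omega
        have hgeq : g = FreeGroup.mk [(i, b)] * FreeGroup.mk w := by
          rw [FreeGroup.mul_mk, ← FreeGroup.mk_toWord (x := g), hw]
          rfl
        refine le_trans ?_ le_sup_right
        refine le_trans ?_ (le_iSup (fun i : Fin r =>
          (FreeGroup.of i • pw r n (mkFP α hα)).1 ⊔ ((FreeGroup.of i)⁻¹ • pw r n (mkFP α hα)).1) i)
        cases b with
        | true =>
          refine le_trans ?_ le_sup_left
          rw [key]
          refine le_trans (le_of_eq ?_) (le_iSup (fun g : {g : FreeGroup (Fin r) // g.norm ≤ n} =>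
            sg (trans (FreeGroup.of i * g.1) α)) ⟨FreeGroup.mk w, hlen⟩)
          rw [hgeq]
          rfl
        | false =>
          refine le_trans ?_ le_sup_right
          rw [key]
          refine le_trans (le_of_eq ?_) (le_iSup (fun g : {g : FreeGroup (Fin r) // g.norm ≤ n} =>
            sg (trans ((FreeGroup.of i)⁻¹ * g.1) α)) ⟨FreeGroup.mk w, hlen⟩)
          rw [hgeq]
          rfl

/-- the sigma-algebra of `α^n` -/
theorem pw_val {ι : Type*} [Finite ι] (α : X → ι) (hα : sg α ≤ mX) (n : ℕ) :
    (pw r n (mkFP α hα)).1 = sg (ballJoin (r := r) n α) := by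
  rw [ball_sg_ballJoin, ball_pw_val_aux]

theorem iSup_pw_val {ι : Type*} [Finite ι] (α : X → ι) (hα : sg α ≤ mX) :
    ⨆ n, (pw r n (mkFP α hα)).1 =
      ⨆ g : FreeGroup (Fin r), MeasurableSpace.comap (trans g α) ⊤ := by
  apply le_antisymm
  · refine iSup_le fun n => ?_
    rw [ball_pw_val_aux]
    refine iSup_le fun g => ?_
    exact le_iSup (fun g : FreeGroup (Fin r) => MeasurableSpace.comap (trans g α) ⊤) g.1
  · refine iSup_le fun g => ?_
    refine le_trans ?_ (le_iSup (fun n => (pw r n (mkFP α hα)).1) g.norm)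
    rw [ball_pw_val_aux]
    exact le_iSup (fun h : {h : FreeGroup (Fin r) // h.norm ≤ g.norm} => sg (trans h.1 α))
      ⟨g, le_rfl⟩

/-- the literal `F(α^n)` is the abstract one -/
theorem bowenF_ballJoin (μ : Measure X) [IsProbabilityMeasure μ] {ι : Type*} [Finite ι]
    (α : X → ι) (hα : sg α ≤ mX) (n : ℕ) :
    bowenF r μ (ballJoin (r := r) n α) = Fn r (hFP μ) (pw r n (mkFP α hα)) := by
  haveI := finite_ball r n
  have hP := pw_val (r := r) α hα n
  have heq : ∀ {κ : Type _} [Finite κ] (P : FP X) (b : X → κ), sg b = P.1 → hFP μ P = ent μ b :=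
    fun P b h => ent_congr μ _ _ (P.2.2.choose_spec.choose_spec.trans h.symm)
  rw [bowenF, Fn, heq _ _ hP.symm]
  congr 1
  refine Finset.sum_congr rfl fun i _ => ?_
  symm
  apply heq
  rw [FP.sup_val, FP.smul_val, hP]
  show sg (fun x => (ballJoin (r := r) n α x, trans (FreeGroup.of i) (ballJoin (r := r) n α) x)) = _
  rw [sg_prod]
  congr 1
  rw [sg, MeasurableSpace.comap_comp]
  rfl

end Pool.Agent.Lib.MP_46d37e_an
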