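import Pool.Agent.Lib.MP_46d37e_an.System

/-!
# The addition formula for actions on compact groups
-/

set_option autoImplicit false

namespace Pool.Agent.Lib.MP_46d37e_an

open MeasureTheory Filter Topology
open scoped ENNReal symmDiff

section Facts

variable {X Y N : Type*}
  [Group X] [TopologicalSpace X] [IsTopologicalGroup X] [CompactSpace X] [T2Space X]
  [SecondCountableTopology X] [mX : MeasurableSpace X] [BorelSpace X]
  [Group Y] [TopologicalSpace Y] [IsTopologicalGroup Y] [CompactSpace Y] [T2Space Y]
  [SecondCountableTopology Y] [mY : MeasurableSpace Y] [BorelSpace Y]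
  [Group N] [TopologicalSpace N] [IsTopologicalGroup N] [CompactSpace N] [T2Space N]
  [SecondCountableTopology N] [mN : MeasurableSpace N] [BorelSpace N]

/-- averages of continuous functions over the fibres are functions on the quotient -/
theorem compactGroup_avg_measurable (lam : Measure N) [IsProbabilityMeasure lam]
    [lam.IsMulLeftInvariant]
    (π : X →* Y) (hπ : Continuous π) (hπs : Function.Surjective π)
    (j : N →* X) (hj : Continuous j) (hex : ∀ x, π x = 1 ↔ ∃ n, j n = x)
    (g : X → ℝ) (hg : Continuous g) (C : ℝ) (hC : ∀ x, |g x| ≤ C) :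
    Measurable[MeasurableSpace.comap π mY] fun x => ∫ n, g (x * j n) ∂lam := by
  set G : X → ℝ := fun x => ∫ n, g (x * j n) ∂lam with hG
  have hcont : Continuous G := by
    refine continuous_of_dominated (bound := fun _ => C) (fun x => ?_) (fun x => ?_) ?_ ?_
    · exact (hg.comp (continuous_const.mul hj)).aestronglyMeasurable
    · exact Filter.Eventually.of_forall fun n => by simpa using hC (x * j n)
    · exact integrable_const C
    · exact Filter.Eventually.of_forall fun n => hg.comp (continuous_id.mul continuous_const)
  have hinv : ∀ x x', π x = π x' → G x = G x' := by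
    intro x x' h
    have h1 : π (x⁻¹ * x') = 1 := by rw [map_mul, map_inv, h]; simp
    obtain ⟨m, hm⟩ := (hex _).1 h1
    have h2 : x' = x * j m := by rw [hm]; group
    simp only [hG]
    rw [h2]
    have h3 : ∀ n, g (x * j m * j n) = (fun n => g (x * j n)) (m * n) := by
      intro n
      simp [map_mul, mul_assoc]
    simp_rw [h3]
    rw [integral_mul_left_eq_self (fun n => g (x * j n)) m]
  have hq : Topology.IsQuotientMap π :=
    (hπ.isClosedMap).isQuotientMap hπ hπs
  obtain ⟨G', hG'⟩ : ∃ G' : Y → ℝ, G = G' ∘ π := by
    refine ⟨fun y => G (Function.surjInv hπs y), ?_⟩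
    funext x
    exact hinv _ _ (Function.surjInv_eq hπs (π x)).symm
  have hG'c : Continuous G' := by
    rw [hq.continuous_iff, ← hG']
    exact hcont
  rw [hG']
  exact hG'c.measurable.comp (comap_measurable π)

/-- the probability of the fibre over `x` is measurable with respect to the quotient -/
theorem fiber_measurable (lam : Measure N) [IsProbabilityMeasure lam] [lam.IsMulLeftInvariant]
    (π : X →* Y) (hπ : Continuous π) (hπs : Function.Surjective π)
    (j : N →* X) (hj : Continuous j) (hex : ∀ x, π x = 1 ↔ ∃ n, j n = x)
    (E : Set X) (hE : MeasurableSet E) :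
    Measurable[MeasurableSpace.comap π mY] fun x => lam {n | x * j n ∈ E} := by
  have hjm : ∀ x : X, Measurable fun n => x * j n := fun x =>
    (continuous_const.mul hj).measurable
  have hset : ∀ (x : X) (E : Set X), MeasurableSet E → MeasurableSet {n | x * j n ∈ E} :=
    fun x E hE => hjm x hE
  have : HasOuterApproxClosed X := by
    let _ : MetricSpace X := TopologicalSpace.metrizableSpaceMetric X
    infer_instance
  have hgen : mX = MeasurableSpace.generateFrom {s : Set X | IsClosed s} :=
    BorelSpace.measurable_eq.trans borel_eq_generateFrom_isClosed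
  induction E, hE using MeasurableSpace.induction_on_inter hgen isPiSystem_isClosed with
  | empty => simp
  | basic F hF =>
    have hF' : IsClosed F := hF
    have hlim : ∀ x, Tendsto (fun k => ENNReal.ofReal (∫ n, ((hF'.apprSeq k (x * j n) : NNReal) : ℝ) ∂lam))
        atTop (𝓝 (lam {n | x * j n ∈ F})) := by
      intro x
      have h1 := HasOuterApproxClosed.tendsto_lintegral_apprSeq hF' (lam.map fun n => x * j n)
      rw [Measure.map_apply (hjm x) hF'.measurableSet] at h1
      refine h1.congr fun k => ?_
      rw [lintegral_map (by fun_prop) (hjm x)]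
      rw [lintegral_coe_eq_integral]
      refine Integrable.of_bound
        ((NNReal.continuous_coe.comp ((hF'.apprSeq k).continuous.comp
          (continuous_const.mul hj))).aestronglyMeasurable) 1
        (Filter.Eventually.of_forall fun n => ?_)
      have := HasOuterApproxClosed.apprSeq_apply_le_one hF' k (x * j n)
      simpa using this
    refine @measurable_of_tendsto_metrizable _ _ (MeasurableSpace.comap π mY) _ _ _ _ _ _ ?_
      (tendsto_pi_nhds.2 hlim)
    intro k
    refine ENNReal.measurable_ofReal.comp ?_
    refine compactGroup_avg_measurable lam π hπ hπs j hj hex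
      (fun x => ((hF'.apprSeq k x : NNReal) : ℝ))
      (NNReal.continuous_coe.comp (hF'.apprSeq k).continuous) 1 fun x => ?_
    have := HasOuterApproxClosed.apprSeq_apply_le_one hF' k x
    rw [abs_of_nonneg (NNReal.coe_nonneg _)]
    exact_mod_cast this
  | compl E hE ih =>
    have : (fun x => lam {n | x * j n ∈ Eᶜ}) = fun x => 1 - lam {n | x * j n ∈ E} := by
      funext x
      have h1 : {n | x * j n ∈ Eᶜ} = {n | x * j n ∈ E}ᶜ := rfl
      rw [h1, prob_compl_eq_one_sub (hset x E hE)]
    rw [this]
    exact Measurable.const_sub ih 1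
  | iUnion f hd hf ih =>
    have : (fun x => lam {n | x * j n ∈ ⋃ i, f i}) = fun x => ∑' i, lam {n | x * j n ∈ f i} := by
      funext x
      have h1 : {n | x * j n ∈ ⋃ i, f i} = ⋃ i, {n | x * j n ∈ f i} := by
        ext n; simp
      rw [h1, measure_iUnion]
      · intro i k hik
        exact Set.disjoint_left.2 fun n hn hn' => Set.disjoint_left.1 (hd hik) hn hn'
      · exact fun i => hset x _ (hf i)
    rw [this]
    exact Measurable.ennreal_tsum ih

/-- the second coordinate is recovered from `x` and `x * j n` -/
theorem prod_le (j : N →* X) (hj : Continuous j) (hji : Function.Injective j) :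
    (Prod.instMeasurableSpace : MeasurableSpace (X × N)) ≤
      MeasurableSpace.comap Prod.fst mX ⊔
        MeasurableSpace.comap (fun p : X × N => p.1 * j p.2) mX := by
  have hemb : Topology.IsClosedEmbedding j := hj.isClosedEmbedding hji
  have hmN : mN = MeasurableSpace.comap j mX := by
    rw [hemb.measurableEmbedding.comap_eq]
  set m' := MeasurableSpace.comap Prod.fst mX ⊔
        MeasurableSpace.comap (fun p : X × N => p.1 * j p.2) mX with hm'
  have h1 : @Measurable _ _ m' mX (Prod.fst : X × N → X) :=
    (comap_measurable (Prod.fst : X × N → X)).mono le_sup_left le_rfl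
  have h2 : @Measurable _ _ m' mX (fun p : X × N => p.1 * j p.2) :=
    (comap_measurable (fun p : X × N => p.1 * j p.2)).mono le_sup_right le_rfl
  have h3 : @Measurable _ _ m' mX (fun p : X × N => j p.2) := by
    have : (fun p : X × N => j p.2) = fun p : X × N => (p.1)⁻¹ * (p.1 * j p.2) := by
      funext p; simp
    rw [this]
    have h4 : @Measurable _ _ m' mX (fun p : X × N => (p.1)⁻¹) := measurable_inv.comp h1
    exact @Measurable.mul X (X × N) mX _ m' _ _ _ h4 h2
  refine sup_le (measurable_iff_comap_le.1 h1) ?_
  rw [hmN, MeasurableSpace.comap_comp]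
  exact measurable_iff_comap_le.1 h3

theorem measurePreserving_mul (μ : Measure X) [IsProbabilityMeasure μ] [μ.IsMulRightInvariant]
    (lam : Measure N) [IsProbabilityMeasure lam] (j : N →* X) (hj : Continuous j) :
    MeasurePreserving (fun p : X × N => p.1 * j p.2) (μ.prod lam) μ := by
  have hm : Measurable (fun p : X × N => p.1 * j p.2) :=
    measurable_fst.mul (hj.measurable.comp measurable_snd)
  refine ⟨hm, ?_⟩
  ext E hE
  rw [Measure.map_apply hm hE, Measure.prod_apply_symm (hm hE)]
  have : ∀ n : N, μ ((fun x => (x, n)) ⁻¹' ((fun p : X × N => p.1 * j p.2) ⁻¹' E)) = μ E := by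
    intro n
    exact measure_preimage_mul_right μ (j n) E
  simp_rw [this]
  simp

theorem measurePreserving_hom (μ : Measure X) [IsProbabilityMeasure μ] [μ.IsHaarMeasure]
    (ν : Measure Y) [IsProbabilityMeasure ν] [ν.IsHaarMeasure]
    (π : X →* Y) (hπ : Continuous π) (hπs : Function.Surjective π) :
    MeasurePreserving π μ ν :=
  MonoidHom.measurePreserving hπ hπs (by simp)

end Facts

/-- automorphisms preserve the Haar measure -/
theorem compactGroup_smulInvariant {r : ℕ} {X : Type*}
    [Group X] [TopologicalSpace X] [IsTopologicalGroup X] [CompactSpace X] [T2Space X]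
    [SecondCountableTopology X] [mX : MeasurableSpace X] [BorelSpace X]
    [MulDistribMulAction (FreeGroup (Fin r)) X] [ContinuousConstSMul (FreeGroup (Fin r)) X]
    (μ : Measure X) [IsProbabilityMeasure μ] [μ.IsHaarMeasure] :
    SMulInvariantMeasure (FreeGroup (Fin r)) X μ := by
  refine ⟨fun g s hs => ?_⟩
  have h := measurePreserving_hom μ μ (MulDistribMulAction.toMonoidHom X g)
    (continuous_const_smul g) (MulAction.surjective g)
  exact h.measure_preimage hs.nullMeasurableSet

/-- Addition formula for compact groups: `1 → N → X → Y → 1` exact and equivariant. -/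
theorem compact_group_formula {r : ℕ} {X Y N : Type*}
    [Group X] [TopologicalSpace X] [IsTopologicalGroup X] [CompactSpace X] [T2Space X]
    [SecondCountableTopology X] [mX : MeasurableSpace X] [BorelSpace X]
    [Group Y] [TopologicalSpace Y] [IsTopologicalGroup Y] [CompactSpace Y] [T2Space Y]
    [SecondCountableTopology Y] [mY : MeasurableSpace Y] [BorelSpace Y]
    [Group N] [TopologicalSpace N] [IsTopologicalGroup N] [CompactSpace N] [T2Space N]
    [SecondCountableTopology N] [mN : MeasurableSpace N] [BorelSpace N]
    [MulDistribMulAction (FreeGroup (Fin r)) X] [ContinuousConstSMul (FreeGroup (Fin r)) X]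
    [MulDistribMulAction (FreeGroup (Fin r)) Y] [ContinuousConstSMul (FreeGroup (Fin r)) Y]
    [MulDistribMulAction (FreeGroup (Fin r)) N] [ContinuousConstSMul (FreeGroup (Fin r)) N]
    (μ : Measure X) [IsProbabilityMeasure μ] [μ.IsHaarMeasure] [μ.IsMulRightInvariant]
    (ν : Measure Y) [IsProbabilityMeasure ν] [ν.IsHaarMeasure]
    (lam : Measure N) [IsProbabilityMeasure lam] [lam.IsHaarMeasure]
    (π : X →* Y) (hπ : Continuous π) (hπs : Function.Surjective π)
    (hπG : ∀ (g : FreeGroup (Fin r)) x, π (g • x) = g • π x)
    (j : N →* X) (hj : Continuous j) (hji : Function.Injective j)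
    (hjG : ∀ (g : FreeGroup (Fin r)) n, j (g • n) = g • j n)
    (hex : ∀ x, π x = 1 ↔ ∃ n, j n = x)
    {ι κ κ' : Type*} [Finite ι] [Finite κ] [Finite κ']
    (α : X → ι) (hα : sg α ≤ mX) (gα : Generating r μ α)
    (γ : Y → κ) (hγ : sg γ ≤ mY) (gγ : Generating r ν γ)
    (β : N → κ') (hβ : sg β ≤ mN) (gβ : Generating r lam β) :
    fI r (hFP μ) (mkFP α hα) = fI r (hFP ν) (mkFP γ hγ) + fI r (hFP lam) (mkFP β hβ) := by
  have := compactGroup_smulInvariant (r := r) μ
  have := compactGroup_smulInvariant (r := r) ν
  have := compactGroup_smulInvariant (r := r) lam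
  refine system_formula μ ν lam π (measurePreserving_hom μ ν π hπ hπs) hπG
    (fun p : X × N => p.1 * j p.2) (measurePreserving_mul μ lam j hj) ?_ ?_ ?_
    (prod_le j hj hji) α hα gα γ hγ gγ β hβ gβ
  · intro g x n
    simp only [hjG, smul_mul']
  · intro x n
    have : π (j n) = 1 := (hex _).2 ⟨n, rfl⟩
    simp [this]
  · intro E hE
    exact fiber_measurable lam π hπ hπs j hj hex E hE

end Pool.Agent.Lib.MP_46d37e_an
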