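import Pool.Agent.Lib.MP_46d37e_an.Poly

/-!
# Finite partitions, entropy, the f-invariant
-/

set_option autoImplicit false

namespace Pool.Agent.Lib.MP_46d37e_an

open MeasureTheory Filter Topology
open scoped ENNReal symmDiff

/-- Shannon entropy of the partition into the fibres of `a` (a map with finitely many values) -/
noncomputable def ent {Ω ι : Type*} [MeasurableSpace Ω] (μ : Measure Ω) (a : Ω → ι) : ℝ :=
  ∑ᶠ i, Real.negMulLog (μ.real (a ⁻¹' {i}))

section FreeAction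

variable {r : ℕ} {X : Type*} [MulAction (FreeGroup (Fin r)) X] {ι : Type*}

/-- the translate `g α` of the partition into the fibres of `α` -/
def trans (g : FreeGroup (Fin r)) (α : X → ι) : X → ι := fun x => α (g⁻¹ • x)

/-- `α ∨ s_i α` -/
def joinGen (i : Fin r) (α : X → ι) : X → ι × ι := fun x => (α x, trans (FreeGroup.of i) α x)

/-- `α^n = ⋁_{|g| ≤ n} g α` -/
def ballJoin (n : ℕ) (α : X → ι) : X → ({g : FreeGroup (Fin r) // g.norm ≤ n} → ι) :=
  fun x g => trans g.1 α x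

/-- Bowen's functional `F(α) = (1 - 2r) H(α) + ∑_i H(α ∨ s_i α)` -/
noncomputable def bowenF (r : ℕ) {X : Type*} [MulAction (FreeGroup (Fin r)) X]
    [MeasurableSpace X] (μ : Measure X) {ι : Type*} (α : X → ι) : ℝ :=
  (1 - 2 * (r : ℝ)) * ent μ α + ∑ i : Fin r, ent μ (joinGen i α)

/-- the translates of the partition `α` generate the sigma-algebra modulo null sets -/
def Generating (r : ℕ) {X : Type*} [MulAction (FreeGroup (Fin r)) X]
    [MeasurableSpace X] (μ : Measure X) {ι : Type*} (α : X → ι) : Prop :=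
  ∀ E : Set X, MeasurableSet E → ∃ E' : Set X,
    MeasurableSet[⨆ g : FreeGroup (Fin r), MeasurableSpace.comap (trans g α) ⊤] E' ∧
      μ (E ∆ E') = 0

end FreeAction

/-! ## The semilattice of finite sub-sigma-algebras -/

/-- the sigma-algebra generated by the fibres of a map -/
abbrev sg {Ω ι : Type*} (a : Ω → ι) : MeasurableSpace Ω := MeasurableSpace.comap a ⊤

theorem sg_comp_equiv {Ω ι κ : Type*} (a : Ω → ι) (e : ι ≃ κ) : sg (fun x => e (a x)) = sg a := by
  ext s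
  rw [MeasurableSpace.measurableSet_comap, MeasurableSpace.measurableSet_comap]
  constructor
  · rintro ⟨t, _, rfl⟩
    exact ⟨e ⁻¹' t, trivial, rfl⟩
  · rintro ⟨t, _, rfl⟩
    refine ⟨e '' t, trivial, ?_⟩
    ext x
    simp

theorem sg_prod {Ω ι κ : Type*} [Finite ι] [Finite κ] (a : Ω → ι) (b : Ω → κ) :
    sg (fun x => (a x, b x)) = sg a ⊔ sg b := by
  apply le_antisymm
  · rintro s ⟨t, -, rfl⟩
    have h : (fun x => (a x, b x)) ⁻¹' t = ⋃ p ∈ t, (a ⁻¹' {p.1} ∩ b ⁻¹' {p.2}) := by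
      ext x
      simp only [Set.mem_preimage, Set.mem_iUnion, Set.mem_inter_iff, Set.mem_singleton_iff]
      constructor
      · intro hx
        exact ⟨(a x, b x), hx, rfl, rfl⟩
      · rintro ⟨p, hp, h1, h2⟩
        rwa [h1, h2]
    rw [h]
    refine MeasurableSet.biUnion (Set.to_countable t) fun p _ => ?_
    refine MeasurableSet.inter ?_ ?_
    · exact (le_sup_left : sg a ≤ sg a ⊔ sg b) _ ⟨{p.1}, trivial, rfl⟩
    · exact (le_sup_right : sg b ≤ sg a ⊔ sg b) _ ⟨{p.2}, trivial, rfl⟩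
  · refine sup_le ?_ ?_
    · rintro s ⟨t, -, rfl⟩
      exact ⟨Prod.fst ⁻¹' t, trivial, rfl⟩
    · rintro s ⟨t, -, rfl⟩
      exact ⟨Prod.snd ⁻¹' t, trivial, rfl⟩

/-- finite sub-sigma-algebras -/
def FP (Ω : Type*) [mΩ : MeasurableSpace Ω] : Type _ :=
  {m : MeasurableSpace Ω // m ≤ mΩ ∧ ∃ (k : ℕ) (a : Ω → Fin k), sg a = m}

section FP

variable {Ω : Type*} [mΩ : MeasurableSpace Ω]

theorem exists_fin {Ω ι : Type*} [Finite ι] (a : Ω → ι) :
    ∃ (k : ℕ) (b : Ω → Fin k), sg b = sg a := by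
  obtain ⟨k, ⟨e⟩⟩ := Finite.exists_equiv_fin ι
  exact ⟨k, fun x => e (a x), sg_comp_equiv a e⟩

/-- the finite sigma-algebra generated by a finite partition -/
def mkFP {ι : Type*} [Finite ι] (a : Ω → ι) (ha : sg a ≤ mΩ) : FP Ω :=
  ⟨sg a, ha, exists_fin a⟩

noncomputable instance : SemilatticeSup (FP Ω) :=
  Subtype.semilatticeSup (by
    rintro m₁ m₂ ⟨h₁, k₁, a₁, rfl⟩ ⟨h₂, k₂, a₂, rfl⟩
    refine ⟨sup_le h₁ h₂, ?_⟩
    rw [← sg_prod]
    exact exists_fin _)

instance : OrderBot (FP Ω) where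
  bot := ⟨⊥, bot_le, 1, fun _ => 0, by
    rw [eq_bot_iff]
    rintro s ⟨t, -, rfl⟩
    rw [MeasurableSpace.measurableSet_bot_iff]
    by_cases h : (0 : Fin 1) ∈ t
    · right; ext x; simp [h]
    · left; ext x; simp [h]⟩
  bot_le := fun a => (bot_le : (⊥ : MeasurableSpace Ω) ≤ a.1)

theorem FP.sup_val (P Q : FP Ω) : (P ⊔ Q).1 = P.1 ⊔ Q.1 := rfl

theorem FP.bot_val : (⊥ : FP Ω).1 = ⊥ := rfl

theorem FP.le_iff (P Q : FP Ω) : P ≤ Q ↔ P.1 ≤ Q.1 := Iff.rfl

/-- entropy of a finite sub-sigma-algebra -/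
noncomputable def hFP (μ : Measure Ω) (P : FP Ω) : ℝ := ent μ P.2.2.choose_spec.choose

instance {G : Type*} [Group G] [MulAction G Ω] [MeasurableConstSMul G Ω] : MulAction G (FP Ω) where
  smul g P := ⟨MeasurableSpace.comap (fun x => g⁻¹ • x) P.1, by
      obtain ⟨h, k, a, ha⟩ := P.2
      refine ⟨(MeasurableSpace.comap_mono h).trans (measurable_const_smul g⁻¹).comap_le, k,
        fun x => a (g⁻¹ • x), ?_⟩
      rw [← ha, sg, MeasurableSpace.comap_comp]
      rfl⟩
  one_smul P := by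
    apply Subtype.ext
    change MeasurableSpace.comap (fun x : Ω => (1 : G)⁻¹ • x) P.1 = P.1
    simp only [inv_one, one_smul]
    exact MeasurableSpace.comap_id
  mul_smul g k P := by
    apply Subtype.ext
    change MeasurableSpace.comap (fun x : Ω => (g * k)⁻¹ • x) P.1 =
      MeasurableSpace.comap (fun x : Ω => g⁻¹ • x) (MeasurableSpace.comap (fun x : Ω => k⁻¹ • x) P.1)
    rw [MeasurableSpace.comap_comp]
    congr 1
    funext x
    simp [mul_smul]

theorem FP.smul_val {G : Type*} [Group G] [MulAction G Ω] [MeasurableConstSMul G Ω] (g : G)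
    (P : FP Ω) : (g • P).1 = MeasurableSpace.comap (fun x => g⁻¹ • x) P.1 := rfl

end FP

end Pool.Agent.Lib.MP_46d37e_an
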