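import Pool.Agent.Lib.MP_46d37e_an.DualDefs

/-!
# A group whose dual has a finite generating partition is countable
-/

set_option autoImplicit false

namespace Pool.Agent.Lib.MP_46d37e_an

open MeasureTheory Filter Topology
open scoped ENNReal symmDiff

namespace DualCount

variable {M : Type*} [AddCommGroup M] [TopologicalSpace M] [DiscreteTopology M]

/-- evaluation is a closed embedding -/
theorem isClosedEmbedding_ev : IsClosedEmbedding (fun (χ : DualGrp M) (a : M) => χ.ev a) :=
  ContinuousMonoidHom.isClosedEmbedding_coe (A := Multiplicative M) (B := Circle)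

theorem continuous_coe : Continuous fun z : Circle => (z : ℂ) := continuous_subtype_val

theorem continuous_ev (a : M) : Continuous fun χ : DualGrp M => χ.ev a :=
  (continuous_apply a).comp isClosedEmbedding_ev.continuous

theorem continuous_smul {r : ℕ} [Module (ZF r) M] (g : FreeGroup (Fin r)) :
    Continuous fun χ : DualGrp M => g • χ := by
  rw [isClosedEmbedding_ev.isInducing.continuous_iff]
  refine continuous_pi fun a => ?_
  exact continuous_ev (MonoidAlgebra.of ℤ (FreeGroup (Fin r)) g⁻¹ • a)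

theorem isHaar : (haarP M).IsHaarMeasure := by
  unfold haarP
  infer_instance

theorem isProb : IsProbabilityMeasure (haarP M) := by
  constructor
  have h := Measure.haarMeasure_self (K₀ := (⊤ : TopologicalSpace.PositiveCompacts (DualGrp M)))
  simpa [haarP] using h

/-- the homomorphism `ℚ / ℤ → ℝ / ℤ → Circle` -/
theorem exists_hom : ∃ φ : AddCircle (1 : ℚ) → Circle, φ 0 = 1 ∧
    (∀ x y, φ (x + y) = φ x * φ y) ∧ ∀ x, φ x = 1 → x = 0 := by
  have hle : AddSubgroup.zmultiples (1 : ℚ) ≤
      (AddSubgroup.zmultiples (1 : ℝ)).comap (Rat.castHom ℝ).toAddMonoidHom := by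
    rintro x ⟨n, rfl⟩
    refine ⟨n, ?_⟩
    simp
  let ψ : AddCircle (1 : ℚ) →+ AddCircle (1 : ℝ) :=
    QuotientAddGroup.map (AddSubgroup.zmultiples (1 : ℚ)) (AddSubgroup.zmultiples (1 : ℝ))
      (Rat.castHom ℝ).toAddMonoidHom hle
  refine ⟨fun x => AddCircle.toCircle (ψ x), ?_, ?_, ?_⟩
  · simp
  · intro x y
    change AddCircle.toCircle (ψ (x + y)) = _
    rw [map_add, AddCircle.toCircle_add]
  · intro x hx
    have h1 : ψ x = 0 := by
      apply AddCircle.injective_toCircle one_ne_zero
      rw [AddCircle.toCircle_zero]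
      exact hx
    revert h1
    refine QuotientAddGroup.induction_on x fun q hq => ?_
    have h2 : ((q : ℝ) : AddCircle (1 : ℝ)) = 0 := hq
    rw [AddCircle.coe_eq_zero_iff] at h2
    obtain ⟨n, hn⟩ := h2
    rw [AddCircle.coe_eq_zero_iff]
    refine ⟨n, ?_⟩
    have h3 : ((n • (1 : ℚ) : ℚ) : ℝ) = (q : ℝ) := by
      rw [← hn]; simp
    exact_mod_cast h3

/-- the characters of a discrete group separate points -/
theorem exists_ev_ne_one {a : M} (ha : a ≠ 0) : ∃ χ : DualGrp M, χ.ev a ≠ 1 := by
  obtain ⟨c, hc⟩ := CharacterModule.exists_character_apply_ne_zero_of_ne_zero ha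
  obtain ⟨φ, h0, hadd, hinj⟩ := exists_hom
  refine ⟨DualGrp.mk (fun b => φ (c b)) ?_ ?_, ?_⟩
  · rw [map_zero]; exact h0
  · intro x y
    rw [map_add]; exact hadd _ _
  · rw [DualGrp.ev_mk]
    intro h
    exact hc (hinj _ h)

theorem integrable_ev (a : M) : Integrable (fun χ : DualGrp M => (χ.ev a : ℂ)) (haarP M) := by
  have := isProb (M := M)
  refine Integrable.of_bound (C := 1) ?_ ?_
  · exact (continuous_coe.comp (continuous_ev a)).aestronglyMeasurable
  · exact Filter.Eventually.of_forall fun χ => (Circle.norm_coe (χ.ev a)).le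

/-- nontrivial characters have mean zero -/
theorem integral_ev {a : M} (ha : a ≠ 0) : ∫ χ : DualGrp M, (χ.ev a : ℂ) ∂(haarP M) = 0 := by
  have := isHaar (M := M)
  obtain ⟨ψ, hψ⟩ := exists_ev_ne_one ha
  have h1 := integral_mul_left_eq_self (μ := haarP M) (fun χ : DualGrp M => (χ.ev a : ℂ)) ψ
  have h2 : (fun χ : DualGrp M => ((ψ * χ).ev a : ℂ)) = fun χ => (ψ.ev a : ℂ) * (χ.ev a : ℂ) := by
    funext χ
    rw [DualGrp.ev_mul, Circle.coe_mul]
  rw [h2, integral_const_mul] at h1
  have h3 : ((ψ.ev a : ℂ) - 1) * ∫ χ : DualGrp M, (χ.ev a : ℂ) ∂(haarP M) = 0 := by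
    rw [sub_mul, h1, one_mul, sub_self]
  rcases mul_eq_zero.1 h3 with h | h
  · exfalso
    apply hψ
    apply Circle.coe_injective
    rw [Circle.coe_one]
    linear_combination h
  · exact h

theorem one_le_integral {a b : M} (hab : a ≠ b) :
    1 ≤ ∫ χ : DualGrp M, ‖(χ.ev a : ℂ) - (χ.ev b : ℂ)‖ ∂(haarP M) := by
  have := isProb (M := M)
  have hne : a - b ≠ 0 := sub_ne_zero.2 hab
  have h0 := integral_ev hne
  have hint := integrable_ev (a - b)
  have hre : ∫ χ : DualGrp M, ((χ.ev (a - b) : ℂ)).re ∂(haarP M) = 0 := by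
    have := integral_re hint
    simp only [RCLike.re_eq_complex_re] at this
    rw [this, h0]
    simp
  have hint2 : Integrable (fun χ : DualGrp M => ((χ.ev (a - b) : ℂ)).re) (haarP M) := hint.re
  have h1 : ∫ χ : DualGrp M, (1 - ((χ.ev (a - b) : ℂ)).re) ∂(haarP M) = 1 := by
    rw [integral_sub (integrable_const _) hint2, hre]
    simp
  rw [← h1]
  refine integral_mono ((integrable_const _).sub hint2)
    ((integrable_ev a).sub (integrable_ev b)).norm fun χ => ?_
  change 1 - ((χ.ev (a - b) : ℂ)).re ≤ ‖(χ.ev a : ℂ) - (χ.ev b : ℂ)‖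
  have hmul : (χ.ev a : ℂ) = (χ.ev (a - b) : ℂ) * (χ.ev b : ℂ) := by
    rw [← Circle.coe_mul, ← DualGrp.ev_add, sub_add_cancel]
  have h2 : (χ.ev a : ℂ) - (χ.ev b : ℂ) = ((χ.ev (a - b) : ℂ) - 1) * (χ.ev b : ℂ) := by
    rw [hmul]; ring
  rw [h2, norm_mul, Circle.norm_coe, mul_one]
  have h3 : 1 - ((χ.ev (a - b) : ℂ)).re = -(((χ.ev (a - b) : ℂ) - 1).re) := by simp
  rw [h3]
  exact (neg_le_abs _).trans (Complex.abs_re_le_norm _)

/-- a generating partition makes the measure separable -/
theorem isSeparable {r : ℕ} [Module (ZF r) M] {k : ℕ} (α : DualGrp M → Fin k)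
    (hα : Measurable α) (hg : Generating r (haarP M) α) : IsSeparable (haarP M) := by
  have := isProb (M := M)
  set μ := haarP M with hμ
  have hle : (⨆ g : FreeGroup (Fin r), MeasurableSpace.comap (trans g α) ⊤) ≤
      (inferInstance : MeasurableSpace (DualGrp M)) := by
    refine iSup_le fun g => ?_
    have : Measurable (trans g α) := hα.comp (continuous_smul g⁻¹).measurable
    exact this.comap_le
  let B : Set (Set (DualGrp M)) :=
    Set.range fun p : FreeGroup (Fin r) × Fin k => (trans p.1 α) ⁻¹' {p.2}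
  have hBc : B.Countable := Set.countable_range _
  have hgen : (⨆ g : FreeGroup (Fin r), MeasurableSpace.comap (trans g α) ⊤) =
      MeasurableSpace.generateFrom (generateSetAlgebra B) := by
    rw [generateFrom_generateSetAlgebra_eq]
    apply le_antisymm
    · refine iSup_le fun g => ?_
      rintro s ⟨t, -, rfl⟩
      have : (trans g α) ⁻¹' t = ⋃ i ∈ t, (trans g α) ⁻¹' {i} := by
        ext x; simp
      rw [this]
      refine MeasurableSet.biUnion (Set.to_countable t) fun i _ => ?_
      exact MeasurableSpace.measurableSet_generateFrom ⟨(g, i), rfl⟩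
    · refine MeasurableSpace.generateFrom_le ?_
      rintro s ⟨p, rfl⟩
      exact le_iSup (fun g : FreeGroup (Fin r) => MeasurableSpace.comap (trans g α) ⊤) p.1 _
        ⟨{p.2}, trivial, rfl⟩
  refine ⟨generateSetAlgebra B, countable_generateSetAlgebra hBc, ?_, ?_⟩
  · intro s hs
    apply hle
    rw [hgen]
    exact MeasurableSpace.measurableSet_generateFrom hs
  · intro s hs _ ε hε
    obtain ⟨E', hE', hE0⟩ := hg s hs
    have hd := @Measure.MeasureDense.of_generateFrom_isSetAlgebra_finite (DualGrp M)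
      (⨆ g : FreeGroup (Fin r), MeasurableSpace.comap (trans g α) ⊤)
      (μ.trim hle) (generateSetAlgebra B) (isFiniteMeasure_trim hle)
      isSetAlgebra_generateSetAlgebra hgen
    obtain ⟨t, ht, hlt⟩ := @Measure.MeasureDense.approx (DualGrp M)
      (⨆ g : FreeGroup (Fin r), MeasurableSpace.comap (trans g α) ⊤) (μ.trim hle)
      (generateSetAlgebra B) hd E' hE' (by
      rw [trim_measurableSet_eq hle hE']; exact measure_ne_top _ _) ε hε
    refine ⟨t, ht, ?_⟩
    have htm : MeasurableSet[⨆ g : FreeGroup (Fin r), MeasurableSpace.comap (trans g α) ⊤] t :=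
      @Measure.MeasureDense.measurable (DualGrp M)
      (⨆ g : FreeGroup (Fin r), MeasurableSpace.comap (trans g α) ⊤) (μ.trim hle)
      (generateSetAlgebra B) hd t ht
    have hms : MeasurableSet[⨆ g : FreeGroup (Fin r), MeasurableSpace.comap (trans g α) ⊤]
        (E' ∆ t) := hE'.symmDiff htm
    rw [trim_measurableSet_eq hle hms] at hlt
    calc μ (s ∆ t) ≤ μ (s ∆ E') + μ (E' ∆ t) := measure_symmDiff_le _ _ _
      _ = μ (E' ∆ t) := by rw [hE0, zero_add]
      _ < ENNReal.ofReal ε := hlt

end DualCount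

variable {M : Type*} [AddCommGroup M] [TopologicalSpace M] [DiscreteTopology M]

/-- if the dual of `M` has a finite generating partition then `M` is countable -/
theorem countable_of_generating {r : ℕ} [Module (ZF r) M] {k : ℕ} (α : DualGrp M → Fin k)
    (hα : Measurable α) (hg : Generating r (haarP M) α) : Countable M := by
  have := DualCount.isProb (M := M)
  have := DualCount.isSeparable α hα hg
  have : Fact ((1 : ℝ≥0∞) ≤ 1) := ⟨le_rfl⟩
  have : Fact ((1 : ℝ≥0∞) ≠ ∞) := ⟨by simp⟩
  have : SecondCountableTopology (Lp ℂ 1 (haarP M)) := inferInstance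
  let F : M → Lp ℂ 1 (haarP M) := fun a => (DualCount.integrable_ev a).toL1 _
  have hdist : ∀ a b : M, a ≠ b → 1 ≤ dist (F a) (F b) := by
    intro a b hab
    have h1 : F a - F b = ((DualCount.integrable_ev a).sub (DualCount.integrable_ev b)).toL1 _ :=
      (Integrable.toL1_sub _ _ _ _).symm
    rw [dist_eq_norm, h1, L1.norm_of_fun_eq_integral_norm]
    exact DualCount.one_le_integral hab
  have hpd : Set.PairwiseDisjoint (Set.univ : Set M) fun a => Metric.ball (F a) (1 / 2) := by
    intro a _ b _ hab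
    refine Metric.ball_disjoint_ball ?_
    have := hdist a b hab
    linarith
  have hc := hpd.countable_of_isOpen (fun _ _ => Metric.isOpen_ball)
    fun a _ => ⟨F a, Metric.mem_ball_self (by norm_num)⟩
  exact Set.countable_univ_iff.1 hc

end Pool.Agent.Lib.MP_46d37e_an
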