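import Pool.Agent.Lib.MP_46d37e_an.Defs

/-!
# Algebraic actions of free groups: definitions
-/

set_option autoImplicit false

namespace Pool.Agent.Lib.MP_46d37e_an

open MeasureTheory Filter Topology
open scoped ENNReal symmDiff

/-- the group ring `ℤ[F_r]` -/
abbrev ZF (r : ℕ) : Type := MonoidAlgebra ℤ (FreeGroup (Fin r))

/-- The Pontryagin dual of the (discrete) additive group `M`. -/
def DualGrp (M : Type*) [AddCommGroup M] [TopologicalSpace M] : Type _ :=
  PontryaginDual (Multiplicative M)

section

variable (M : Type*) [AddCommGroup M] [TopologicalSpace M]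

noncomputable instance : CommGroup (DualGrp M) :=
  inferInstanceAs (CommGroup (PontryaginDual (Multiplicative M)))

instance : TopologicalSpace (DualGrp M) :=
  inferInstanceAs (TopologicalSpace (PontryaginDual (Multiplicative M)))

instance : T2Space (DualGrp M) :=
  inferInstanceAs (T2Space (PontryaginDual (Multiplicative M)))

instance : IsTopologicalGroup (DualGrp M) :=
  inferInstanceAs (IsTopologicalGroup (PontryaginDual (Multiplicative M)))

instance [DiscreteTopology M] : CompactSpace (DualGrp M) :=
  inferInstanceAs (CompactSpace (PontryaginDual (Multiplicative M)))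

instance : MeasurableSpace (DualGrp M) := borel _

instance : BorelSpace (DualGrp M) := ⟨rfl⟩

variable {M}

/-- the underlying character of the multiplicative group -/
def DualGrp.toPD (χ : DualGrp M) : PontryaginDual (Multiplicative M) := χ

/-- the value of the character `χ` at `a` -/
noncomputable def DualGrp.ev (χ : DualGrp M) (a : M) : Circle := χ.toPD (Multiplicative.ofAdd a)

theorem DualGrp.ext {χ χ' : DualGrp M} (h : ∀ a, χ.ev a = χ'.ev a) : χ = χ' :=
  PontryaginDual.ext (ψ := χ.toPD) (φ := χ'.toPD) fun a => h a.toAdd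

theorem DualGrp.ev_zero (χ : DualGrp M) : χ.ev 0 = 1 :=
  map_one χ.toPD

theorem DualGrp.ev_add (χ : DualGrp M) (a b : M) : χ.ev (a + b) = χ.ev a * χ.ev b :=
  map_mul χ.toPD (Multiplicative.ofAdd a) (Multiplicative.ofAdd b)

theorem DualGrp.ev_mul (χ χ' : DualGrp M) (a : M) : (χ * χ').ev a = χ.ev a * χ'.ev a := rfl

theorem DualGrp.ev_one (a : M) : (1 : DualGrp M).ev a = 1 := rfl

variable [DiscreteTopology M]

/-- a character of the discrete group `M` -/
noncomputable def DualGrp.mk (f : M → Circle) (hf0 : f 0 = 1) (hf : ∀ a b, f (a + b) = f a * f b) :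
    DualGrp M :=
  ({ toFun := fun a => f a.toAdd, map_one' := hf0, map_mul' := fun a b => hf a.toAdd b.toAdd,
     continuous_toFun := continuous_of_discreteTopology } : Multiplicative M →ₜ* Circle)

theorem DualGrp.ev_mk (f : M → Circle) (hf0 : f 0 = 1) (hf : ∀ a b, f (a + b) = f a * f b)
    (a : M) : (DualGrp.mk f hf0 hf).ev a = f a := rfl

/-- The action of the free group on the dual of a `ℤ[F_r]`-module: `(g χ)(a) = χ (g⁻¹ a)`. -/
noncomputable instance {r : ℕ} [Module (ZF r) M] :
    MulDistribMulAction (FreeGroup (Fin r)) (DualGrp M) where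
  smul g χ := DualGrp.mk (fun a => χ.ev (MonoidAlgebra.of ℤ (FreeGroup (Fin r)) g⁻¹ • a))
    (by rw [smul_zero]; exact χ.ev_zero)
    (fun a b => by rw [smul_add]; exact χ.ev_add _ _)
  one_smul χ := by
    refine DualGrp.ext fun a => ?_
    change χ.ev (MonoidAlgebra.of ℤ (FreeGroup (Fin r)) 1⁻¹ • a) = χ.ev a
    rw [inv_one, map_one, one_smul]
  mul_smul g k χ := by
    refine DualGrp.ext fun a => ?_
    change χ.ev (MonoidAlgebra.of ℤ (FreeGroup (Fin r)) (g * k)⁻¹ • a) =
      χ.ev (MonoidAlgebra.of ℤ (FreeGroup (Fin r)) k⁻¹ •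
        (MonoidAlgebra.of ℤ (FreeGroup (Fin r)) g⁻¹ • a))
    rw [mul_inv_rev, map_mul, mul_smul]
  smul_mul g χ χ' := rfl
  smul_one g := rfl

theorem DualGrp.ev_smul {r : ℕ} [Module (ZF r) M] (g : FreeGroup (Fin r)) (χ : DualGrp M)
    (a : M) : (g • χ).ev a = χ.ev (MonoidAlgebra.of ℤ (FreeGroup (Fin r)) g⁻¹ • a) := rfl

end

/-- the normalised Haar measure of the dual of a discrete group -/
noncomputable def haarP (M : Type*) [AddCommGroup M] [TopologicalSpace M] [DiscreteTopology M] :
    Measure (DualGrp M) := Measure.haarMeasure ⊤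

/-- a finite measurable partition `α` of `M^` (into the fibres of a map to `Fin k`) whose
translates generate the Borel sigma-algebra modulo null sets -/
def IsGenPart (r : ℕ) (M : Type*) [AddCommGroup M] [TopologicalSpace M] [DiscreteTopology M]
    [Module (ZF r) M] {k : ℕ} (α : DualGrp M → Fin k) : Prop :=
  Measurable α ∧ Generating r (haarP M) α

/-- `v` is the f-invariant of the action of `F_r` on `M^`: the limit of `F(α^n)` for every finite
generating partition `α` -/
def IsFInv (r : ℕ) (M : Type*) [AddCommGroup M] [TopologicalSpace M] [DiscreteTopology M]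
    [Module (ZF r) M] (v : EReal) : Prop :=
  ∀ (k : ℕ) (α : DualGrp M → Fin k), IsGenPart r M α →
    Tendsto (fun n => (bowenF r (haarP M) (ballJoin (r := r) n α) : EReal)) atTop (𝓝 v)

end Pool.Agent.Lib.MP_46d37e_an
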