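import Pool.Agent.Lib.MP_46d37e_an.DualDefs

/-!
# Facts on duals of discrete modules
-/

set_option autoImplicit false

namespace Pool.Agent.Lib.MP_46d37e_an

open MeasureTheory Filter Topology
open scoped ENNReal symmDiff

variable {M : Type*} [AddCommGroup M] [TopologicalSpace M] [DiscreteTopology M]

instance haarP_isHaar : (haarP M).IsHaarMeasure :=
  Measure.isHaarMeasure_haarMeasure _

instance haarP_isProb : IsProbabilityMeasure (haarP M) :=
  ⟨Measure.haarMeasure_self (K₀ := (⊤ : TopologicalSpace.PositiveCompacts (DualGrp M)))⟩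

/-- the evaluation map on the dual of a discrete group is an embedding -/
theorem dualFacts_isEmbedding_ev :
    IsEmbedding (fun (χ : DualGrp M) (a : M) => χ.ev a) := by
  have h1 : IsEmbedding (ContinuousMonoidHom.toContinuousMap :
      (Multiplicative M →ₜ* Circle) → C(Multiplicative M, Circle)) :=
    ContinuousMonoidHom.isEmbedding_toContinuousMap _ _
  have h2 : IsEmbedding ((⇑) : C(Multiplicative M, Circle) → Multiplicative M → Circle) :=
    ContinuousMap.homeoFnOfDiscrete.isEmbedding
  exact h2.comp h1

theorem dualFacts_continuous_ev (a : M) : Continuous (fun χ : DualGrp M => χ.ev a) :=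
  (continuous_apply a).comp dualFacts_isEmbedding_ev.continuous

theorem dualFacts_continuous_iff {Y : Type*} [TopologicalSpace Y] (f : Y → DualGrp M) :
    Continuous f ↔ ∀ a, Continuous fun y => (f y).ev a := by
  rw [dualFacts_isEmbedding_ev.continuous_iff, continuous_pi_iff]
  rfl

instance {r : ℕ} [Module (ZF r) M] :
    ContinuousConstSMul (FreeGroup (Fin r)) (DualGrp M) where
  continuous_const_smul g := by
    rw [dualFacts_continuous_iff]
    intro a
    exact dualFacts_continuous_ev _

instance secondCountable_dual [Countable M] : SecondCountableTopology (DualGrp M) :=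
  dualFacts_isEmbedding_ev.secondCountableTopology

section Maps

variable {A B C : Type*} [AddCommGroup A] [TopologicalSpace A] [DiscreteTopology A]
  [AddCommGroup B] [TopologicalSpace B] [DiscreteTopology B]
  [AddCommGroup C] [TopologicalSpace C] [DiscreteTopology C]

/-- the dual of a homomorphism -/
noncomputable def dualMap (f : A →+ B) : DualGrp B →* DualGrp A where
  toFun χ := DualGrp.mk (fun a => χ.ev (f a)) (by rw [map_zero]; exact χ.ev_zero)
    (fun a b => by rw [map_add]; exact χ.ev_add _ _)
  map_one' := rfl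
  map_mul' _ _ := rfl

theorem dualMap_ev (f : A →+ B) (χ : DualGrp B) (a : A) : (dualMap f χ).ev a = χ.ev (f a) := rfl

theorem continuous_dualMap (f : A →+ B) : Continuous (dualMap f) := by
  rw [dualFacts_continuous_iff]
  intro a
  exact dualFacts_continuous_ev _

/-- division on the circle -/
theorem dualFacts_exists_root (z : Circle) (n : ℤ) (hn : n ≠ 0) : ∃ w : Circle, w ^ n = z := by
  refine ⟨Circle.exp (Complex.arg (z : ℂ) / n), ?_⟩
  have h : (n : ℝ) * (Complex.arg (z : ℂ) / n) = Complex.arg (z : ℂ) :=
    mul_div_cancel₀ _ (Int.cast_ne_zero.mpr hn)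
  rw [← Circle.exp_zsmul, zsmul_eq_mul, h]
  exact Circle.exp_arg z

/-- the circle is divisible -/
noncomputable instance dualFacts_divisible : DivisibleBy (Additive Circle) ℤ where
  div z n := if hn : n = 0 then 0 else
    Additive.ofMul (dualFacts_exists_root z.toMul n hn).choose
  div_zero z := by simp
  div_cancel {n} z hn := by
    rw [dif_neg hn]
    exact congrArg Additive.ofMul (dualFacts_exists_root z.toMul n hn).choose_spec

/-- a character as an additive homomorphism -/
noncomputable def dualFacts_toHom (χ : DualGrp A) : A →+ Additive Circle where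
  toFun a := Additive.ofMul (χ.ev a)
  map_zero' := congrArg Additive.ofMul χ.ev_zero
  map_add' a b := congrArg Additive.ofMul (χ.ev_add a b)

/-- the character given by an additive homomorphism -/
noncomputable def dualFacts_ofHom (f : A →+ Additive Circle) : DualGrp A :=
  DualGrp.mk (fun a => (f a).toMul) (congrArg Additive.toMul f.map_zero)
    (fun a b => congrArg Additive.toMul (f.map_add a b))

theorem surjective_dualMap (f : A →+ B) (hf : Function.Injective f) :
    Function.Surjective (dualMap f) := by
  intro χ
  obtain ⟨h, hh⟩ := (Module.Baer.of_divisible (Additive Circle)).extension_property_addMonoidHom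
    f hf (dualFacts_toHom χ)
  refine ⟨dualFacts_ofHom h, DualGrp.ext fun a => ?_⟩
  have := DFunLike.congr_fun hh a
  exact congrArg Additive.toMul this

theorem injective_dualMap (f : B →+ C) (hf : Function.Surjective f) :
    Function.Injective (dualMap f) := by
  intro χ χ' h
  refine DualGrp.ext fun c => ?_
  obtain ⟨b, rfl⟩ := hf c
  rw [← dualMap_ev, h, dualMap_ev]

omit [TopologicalSpace C] [DiscreteTopology C] in
theorem dualFacts_eq_of_eq (i : A →+ B) (q : B →+ C)
    (hex : ∀ b, q b = 0 ↔ ∃ a, i a = b) (χ : DualGrp B) (h : dualMap i χ = 1) (b b' : B)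
    (hb : q b = q b') : χ.ev b = χ.ev b' := by
  obtain ⟨a, ha⟩ := (hex (b - b')).1 (by rw [map_sub, hb, sub_self])
  have h1 : χ.ev (b - b') = 1 := by
    rw [← ha, ← dualMap_ev, h, DualGrp.ev_one]
  have h2 : b = (b - b') + b' := by abel
  rw [h2, χ.ev_add, h1, one_mul]

theorem exact_dualMap (i : A →+ B) (q : B →+ C) (hq : Function.Surjective q)
    (hex : ∀ b, q b = 0 ↔ ∃ a, i a = b) (χ : DualGrp B) :
    dualMap i χ = 1 ↔ ∃ ρ, dualMap q ρ = χ := by
  constructor
  · intro h
    have key := dualFacts_eq_of_eq i q hex χ h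
    refine ⟨DualGrp.mk (fun c => χ.ev (Function.surjInv hq c)) ?_ ?_, DualGrp.ext fun b => ?_⟩
    · rw [key _ 0 (by rw [Function.surjInv_eq hq, map_zero]), χ.ev_zero]
    · intro c c'
      rw [← χ.ev_add]
      apply key
      rw [map_add, Function.surjInv_eq hq, Function.surjInv_eq hq, Function.surjInv_eq hq]
    · rw [dualMap_ev, DualGrp.ev_mk]
      apply key
      rw [Function.surjInv_eq hq]
  · rintro ⟨ρ, rfl⟩
    refine DualGrp.ext fun a => ?_
    rw [dualMap_ev, dualMap_ev, (hex (i a)).2 ⟨a, rfl⟩, ρ.ev_zero, DualGrp.ev_one]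

theorem dualMap_smul {r : ℕ} [Module (ZF r) A] [Module (ZF r) B] (f : A →ₗ[ZF r] B)
    (g : FreeGroup (Fin r)) (χ : DualGrp B) :
    dualMap f.toAddMonoidHom (g • χ) = g • dualMap f.toAddMonoidHom χ := by
  refine DualGrp.ext fun a => ?_
  rw [dualMap_ev, DualGrp.ev_smul, DualGrp.ev_smul, dualMap_ev]
  congr 1
  exact (map_smul f _ _).symm

end Maps

end Pool.Agent.Lib.MP_46d37e_an
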