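import Pool.Agent.Lib.MP_46d37e_an.Defs

/-!
# Shannon entropy of finite sub-sigma-algebras
-/

set_option autoImplicit false

namespace Pool.Agent.Lib.MP_46d37e_an

open MeasureTheory Filter Topology
open scoped ENNReal symmDiff

/-! ## General facts -/

/-- if `b` is measurable with respect to `a` then `b` is constant on the fibres of `a` -/
theorem Ent.ker_of_sg_le {Ω ι κ : Type*} {a : Ω → ι} {b : Ω → κ} (h : sg b ≤ sg a) {x y : Ω}
    (hxy : a x = a y) : b x = b y := by
  have h1 : MeasurableSet[sg b] (b ⁻¹' {b x}) := ⟨{b x}, trivial, rfl⟩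
  obtain ⟨t, -, ht⟩ := h _ h1
  have hx : x ∈ b ⁻¹' {b x} := rfl
  rw [← ht, Set.mem_preimage, hxy] at hx
  have hy : y ∈ a ⁻¹' t := hx
  rw [ht] at hy
  exact (Set.mem_singleton_iff.mp hy).symm

theorem Ent.eq_sum {Ω ι : Type*} [MeasurableSpace Ω] (μ : Measure Ω) [Fintype ι] (a : Ω → ι) :
    ent μ a = ∑ i, Real.negMulLog (μ.real (a ⁻¹' {i})) := by
  unfold ent
  exact finsum_eq_sum_of_fintype _

theorem Ent.fiber_nonempty {Ω ι : Type*} [MeasurableSpace Ω] (μ : Measure Ω) (a : Ω → ι) (i : ι)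
    (h : Real.negMulLog (μ.real (a ⁻¹' {i})) ≠ 0) : ∃ x, a x = i := by
  by_contra hcon
  apply h
  have h1 : a ⁻¹' {i} = ∅ := by
    ext x
    simp only [Set.mem_preimage, Set.mem_singleton_iff, Set.mem_empty_iff_false, iff_false]
    exact fun hx => hcon ⟨x, hx⟩
  rw [h1]
  simp

/-- entropy depends only on the partition -/
theorem Ent.congr_of_ker {Ω ι κ : Type*} [MeasurableSpace Ω] (μ : Measure Ω) [Finite ι] [Finite κ]
    (a : Ω → ι) (b : Ω → κ) (h : ∀ x y, a x = a y ↔ b x = b y) : ent μ a = ent μ b := by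
  classical
  obtain ⟨_⟩ := nonempty_fintype ι
  obtain ⟨_⟩ := nonempty_fintype κ
  rw [Ent.eq_sum, Ent.eq_sum]
  have hfib : ∀ x, a ⁻¹' {a x} = b ⁻¹' {b x} := by
    intro x
    ext y
    simp only [Set.mem_preimage, Set.mem_singleton_iff]
    exact h y x
  refine Finset.sum_bij_ne_zero (fun i _ hi => b (Ent.fiber_nonempty μ a i hi).choose) ?_ ?_ ?_ ?_
  · intro _ _ _
    exact Finset.mem_univ _
  · intro i _ hi j _ hj hij
    have h1 := (Ent.fiber_nonempty μ a i hi).choose_spec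
    have h2 := (Ent.fiber_nonempty μ a j hj).choose_spec
    rw [← h1, ← h2]
    exact (h _ _).mpr hij
  · intro k _ hk
    obtain ⟨x, rfl⟩ := Ent.fiber_nonempty μ b k hk
    have hne : Real.negMulLog (μ.real (a ⁻¹' {a x})) ≠ 0 := by rwa [hfib x]
    refine ⟨a x, Finset.mem_univ _, hne, ?_⟩
    exact (h _ _).mp (Ent.fiber_nonempty μ a (a x) hne).choose_spec
  · intro i _ hi
    have h1 := (Ent.fiber_nonempty μ a i hi).choose_spec
    have h2 := hfib (Ent.fiber_nonempty μ a i hi).choose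
    rw [h1] at h2
    rw [h2]

theorem Ent.congr {Ω ι κ : Type*} [MeasurableSpace Ω] (μ : Measure Ω) [Finite ι] [Finite κ]
    (a : Ω → ι) (b : Ω → κ) (h : sg a = sg b) : ent μ a = ent μ b :=
  Ent.congr_of_ker μ a b fun _ _ => ⟨Ent.ker_of_sg_le h.ge, Ent.ker_of_sg_le h.le⟩

theorem Ent.hFP_eq {Ω ι : Type*} [MeasurableSpace Ω] (μ : Measure Ω) [Finite ι] (P : FP Ω)
    (a : Ω → ι) (h : sg a = P.1) : hFP μ P = ent μ a := by
  unfold hFP
  refine Ent.congr μ _ _ ?_
  rw [h]
  exact P.2.2.choose_spec.choose_spec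

theorem Ent.measurable_fiber {Ω ι : Type*} [mΩ : MeasurableSpace Ω] {a : Ω → ι} (h : sg a ≤ mΩ)
    (t : Set ι) : MeasurableSet (a ⁻¹' t) :=
  h _ ⟨t, trivial, rfl⟩

/-- the marginals -/
theorem Ent.marginal {Ω α β : Type*} [mΩ : MeasurableSpace Ω] (μ : Measure Ω) [IsFiniteMeasure μ]
    [Fintype α] [DecidableEq β] (f : Ω → α) (hf : sg f ≤ mΩ) (g : α → β) (y : β) :
    μ.real ((fun x => g (f x)) ⁻¹' {y}) = ∑ x, if g x = y then μ.real (f ⁻¹' {x}) else 0 := by
  rw [← Finset.sum_filter,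
    sum_measureReal_preimage_singleton _ (fun x _ => Ent.measurable_fiber hf {x})]
  congr 1
  ext x
  simp

/-- subadditivity of `negMulLog` -/
theorem Ent.negMulLog_add_le {x y : ℝ} (hx : 0 ≤ x) (hy : 0 ≤ y) :
    Real.negMulLog (x + y) ≤ Real.negMulLog x + Real.negMulLog y := by
  rcases hx.eq_or_lt with h | hx'
  · rw [← h]; simp
  rcases hy.eq_or_lt with h | hy'
  · rw [← h]; simp
  unfold Real.negMulLog
  have h1 := Real.log_le_log hx' (show x ≤ x + y by linarith)
  have h2 := Real.log_le_log hy' (show y ≤ x + y by linarith)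
  nlinarith

theorem Ent.negMulLog_sum_le {α : Type*} (s : Finset α) (p : α → ℝ) (hp : ∀ i, 0 ≤ p i) :
    Real.negMulLog (∑ i ∈ s, p i) ≤ ∑ i ∈ s, Real.negMulLog (p i) := by
  classical
  induction s using Finset.induction_on with
  | empty => simp
  | insert i s hi ih =>
    rw [Finset.sum_insert hi, Finset.sum_insert hi]
    exact (Ent.negMulLog_add_le (hp i) (Finset.sum_nonneg fun j _ => hp j)).trans
      (by linarith)

/-- the pointwise inequality behind submodularity -/
theorem Ent.log_ineq {x u v w : ℝ} (hx : 0 ≤ x) (hxu : x ≤ u) (hxv : x ≤ v) (hu : u ≤ w) :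
    x - u * v / w ≤ x * (Real.log x + Real.log w - Real.log u - Real.log v) := by
  rcases hx.eq_or_lt with h | hx'
  · rw [← h]
    have h1 : 0 ≤ u * v / w := div_nonneg (mul_nonneg (by linarith) (by linarith)) (by linarith)
    linarith
  have hu0 : 0 < u := by linarith
  have hv0 : 0 < v := by linarith
  have hw0 : 0 < w := by linarith
  have h1 := Real.log_le_sub_one_of_pos (show 0 < u * v / (x * w) by positivity)
  rw [Real.log_div (by positivity) (by positivity), Real.log_mul hu0.ne' hv0.ne',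
    Real.log_mul hx'.ne' hw0.ne'] at h1
  have h2 : x * (u * v / (x * w)) = u * v / w := by field_simp
  nlinarith

/-- submodularity for a matrix of nonnegative numbers -/
theorem Ent.matrix_submod {α β : Type*} [Fintype α] [Fintype β] (p : α → β → ℝ)
    (hp : ∀ i j, 0 ≤ p i j) :
    (∑ i, ∑ j, Real.negMulLog (p i j)) + Real.negMulLog (∑ i, ∑ j, p i j) ≤
      (∑ i, Real.negMulLog (∑ j, p i j)) + ∑ j, Real.negMulLog (∑ i, p i j) := by
  set w : ℝ := ∑ i, ∑ j, p i j with hw
  set u : α → ℝ := fun i => ∑ j, p i j with hu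
  set v : β → ℝ := fun j => ∑ i, p i j with hv
  have hw' : ∑ j, v j = w := by rw [hw, Finset.sum_comm]
  have hw'' : ∑ i, u i = w := hw.symm
  have hu0 : ∀ i, 0 ≤ u i := fun i => Finset.sum_nonneg fun j _ => hp i j
  have h1 : ∀ i j, p i j ≤ u i := fun i j =>
    Finset.single_le_sum (fun j _ => hp i j) (Finset.mem_univ j)
  have h2 : ∀ i j, p i j ≤ v j := fun i j =>
    Finset.single_le_sum (f := fun i => p i j) (fun i _ => hp i j) (Finset.mem_univ i)
  have h3 : ∀ i, u i ≤ w := fun i => Finset.single_le_sum (fun i _ => hu0 i) (Finset.mem_univ i)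
  have key : ∑ i, ∑ j, (p i j - u i * v j / w) ≤
      ∑ i, ∑ j, p i j * (Real.log (p i j) + Real.log w - Real.log (u i) - Real.log (v j)) :=
    Finset.sum_le_sum fun i _ => Finset.sum_le_sum fun j _ =>
      Ent.log_ineq (hp i j) (h1 i j) (h2 i j) (h3 i)
  have hL : ∑ i, ∑ j, (p i j - u i * v j / w) = 0 := by
    simp only [Finset.sum_sub_distrib]
    have e1 : ∑ i, ∑ j, u i * v j / w = w * w / w := by
      simp_rw [mul_div_assoc, ← Finset.mul_sum, ← Finset.sum_div, hw', ← Finset.sum_mul, hw'']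
    rw [e1, ← hw, mul_self_div_self, sub_self]
  have hR : ∑ i, ∑ j, p i j * (Real.log (p i j) + Real.log w - Real.log (u i) - Real.log (v j)) =
      -(∑ i, ∑ j, Real.negMulLog (p i j)) - Real.negMulLog w + (∑ i, Real.negMulLog (u i)) +
        ∑ j, Real.negMulLog (v j) := by
    have e1 : ∀ i j, p i j * (Real.log (p i j) + Real.log w - Real.log (u i) - Real.log (v j)) =
        -Real.negMulLog (p i j) + p i j * Real.log w - p i j * Real.log (u i) -
          p i j * Real.log (v j) := by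
      intro i j
      unfold Real.negMulLog
      ring
    simp_rw [e1, Finset.sum_sub_distrib, Finset.sum_add_distrib, Finset.sum_neg_distrib]
    have e2 : ∑ i, ∑ j, p i j * Real.log w = w * Real.log w := by
      simp_rw [← Finset.sum_mul]
      rfl
    have e3 : ∑ i, ∑ j, p i j * Real.log (u i) = ∑ i, u i * Real.log (u i) := by
      simp_rw [← Finset.sum_mul]
      rfl
    have e4 : ∑ i, ∑ j, p i j * Real.log (v j) = ∑ j, v j * Real.log (v j) := by
      rw [Finset.sum_comm]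
      simp_rw [← Finset.sum_mul]
      rfl
    rw [e2, e3, e4]
    unfold Real.negMulLog
    simp only [neg_mul, Finset.sum_neg_distrib]
    ring
  rw [hL, hR] at key
  linarith

section

variable {Ω : Type*} [mΩ : MeasurableSpace Ω] (μ : Measure Ω) [IsProbabilityMeasure μ]

theorem ent_eq_sum {ι : Type*} [Fintype ι] (a : Ω → ι) :
    ent μ a = ∑ i, Real.negMulLog (μ.real (a ⁻¹' {i})) :=
  Ent.eq_sum μ a

/-- entropy depends only on the generated sigma-algebra -/
theorem ent_congr {ι κ : Type*} [Finite ι] [Finite κ] (a : Ω → ι) (b : Ω → κ)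
    (h : sg a = sg b) : ent μ a = ent μ b :=
  Ent.congr μ a b h

theorem hFP_mk {ι : Type*} [Finite ι] (a : Ω → ι) (ha : sg a ≤ mΩ) :
    hFP μ (mkFP a ha) = ent μ a :=
  Ent.hFP_eq μ _ a rfl

theorem hFP_bot : hFP μ (⊥ : FP Ω) = 0 := by
  have h1 : sg (fun _ : Ω => (0 : Fin 1)) = (⊥ : FP Ω).1 := by
    rw [FP.bot_val, eq_bot_iff]
    rintro s ⟨t, -, rfl⟩
    rw [MeasurableSpace.measurableSet_bot_iff]
    by_cases h : (0 : Fin 1) ∈ t
    · right; ext x; simp [h]
    · left; ext x; simp [h]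
  rw [Ent.hFP_eq μ _ _ h1, Ent.eq_sum]
  have h2 : (fun _ : Ω => (0 : Fin 1)) ⁻¹' {0} = Set.univ := by
    ext x; simp
  simp [h2]

/-- entropy of the join of two partitions, monotonicity -/
theorem Ent.ent_le_prod {ι κ : Type*} [Finite ι] [Finite κ] (a : Ω → ι) (b : Ω → κ)
    (ha : sg a ≤ mΩ) (hb : sg b ≤ mΩ) : ent μ a ≤ ent μ (fun x => (a x, b x)) := by
  classical
  obtain ⟨_⟩ := nonempty_fintype ι
  obtain ⟨_⟩ := nonempty_fintype κ
  have hab : sg (fun x => (a x, b x)) ≤ mΩ := by rw [sg_prod]; exact sup_le ha hb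
  rw [Ent.eq_sum, Ent.eq_sum, Fintype.sum_prod_type]
  refine Finset.sum_le_sum fun i _ => ?_
  have h1 := Ent.marginal μ (fun x => (a x, b x)) hab Prod.fst i
  simp only at h1
  have h2 : (∑ x : ι × κ, if x.1 = i then μ.real ((fun x => (a x, b x)) ⁻¹' {x}) else 0) =
      ∑ j, μ.real ((fun x => (a x, b x)) ⁻¹' {(i, j)}) := by
    rw [Fintype.sum_prod_type, Finset.sum_comm]
    refine Finset.sum_congr rfl fun j _ => ?_
    simp
  rw [h2] at h1
  rw [h1]
  exact Ent.negMulLog_sum_le _ _ fun j => measureReal_nonneg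

/-- submodularity -/
theorem Ent.ent_submod {ι κ l : Type*} [Finite ι] [Finite κ] [Finite l] (a : Ω → ι) (b : Ω → κ)
    (c : Ω → l) (ha : sg a ≤ mΩ) (hb : sg b ≤ mΩ) (hc : sg c ≤ mΩ) :
    ent μ (fun x => ((a x, b x), c x)) + ent μ c ≤
      ent μ (fun x => (a x, c x)) + ent μ (fun x => (b x, c x)) := by
  classical
  obtain ⟨_⟩ := nonempty_fintype ι
  obtain ⟨_⟩ := nonempty_fintype κ
  obtain ⟨_⟩ := nonempty_fintype l
  have hab : sg (fun x => (a x, b x)) ≤ mΩ := by rw [sg_prod]; exact sup_le ha hb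
  have habc : sg (fun x => ((a x, b x), c x)) ≤ mΩ := by
    have h1 : sg (fun x => ((fun x => (a x, b x)) x, c x)) = sg (fun x => (a x, b x)) ⊔ sg c :=
      sg_prod _ _
    refine le_trans (le_of_eq h1) (sup_le hab hc)
  set f : Ω → (ι × κ) × l := fun x => ((a x, b x), c x) with hf
  set q : l → ι → κ → ℝ := fun k i j => μ.real (f ⁻¹' {((i, j), k)}) with hq
  have hq0 : ∀ k i j, 0 ≤ q k i j := fun _ _ _ => measureReal_nonneg
  have eabc : ent μ f = ∑ k, ∑ i, ∑ j, Real.negMulLog (q k i j) := by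
    rw [Ent.eq_sum, Fintype.sum_prod_type, Finset.sum_comm]
    refine Finset.sum_congr rfl fun k _ => ?_
    rw [Fintype.sum_prod_type]
  have ec : ent μ c = ∑ k, Real.negMulLog (∑ i, ∑ j, q k i j) := by
    rw [Ent.eq_sum]
    refine Finset.sum_congr rfl fun k _ => ?_
    congr 1
    have h1 := Ent.marginal μ f habc Prod.snd k
    have h2 : (fun x => (f x).2) = c := rfl
    rw [h2] at h1
    rw [h1, Fintype.sum_prod_type, Fintype.sum_prod_type]
    refine Finset.sum_congr rfl fun i _ => Finset.sum_congr rfl fun j _ => ?_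
    simp [hq]
  have eac : ent μ (fun x => (a x, c x)) = ∑ k, ∑ i, Real.negMulLog (∑ j, q k i j) := by
    rw [Ent.eq_sum, Fintype.sum_prod_type, Finset.sum_comm]
    refine Finset.sum_congr rfl fun k _ => Finset.sum_congr rfl fun i _ => ?_
    congr 1
    have h1 := Ent.marginal μ f habc (fun z => (z.1.1, z.2)) (i, k)
    have h2 : (fun x => ((f x).1.1, (f x).2)) = (fun x => (a x, c x)) := rfl
    rw [h2] at h1
    rw [h1, Fintype.sum_prod_type, Fintype.sum_prod_type, Finset.sum_comm]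
    refine Finset.sum_congr rfl fun j _ => ?_
    simp only [Prod.mk.injEq]
    rw [Finset.sum_eq_single i, Finset.sum_eq_single k]
    · simp [hq]
    · intro k' _ hk'
      simp [hk']
    · intro h; exact absurd (Finset.mem_univ _) h
    · intro i' _ hi'
      simp [hi']
    · intro h; exact absurd (Finset.mem_univ _) h
  have ebc : ent μ (fun x => (b x, c x)) = ∑ k, ∑ j, Real.negMulLog (∑ i, q k i j) := by
    rw [Ent.eq_sum, Fintype.sum_prod_type, Finset.sum_comm]
    refine Finset.sum_congr rfl fun k _ => Finset.sum_congr rfl fun j _ => ?_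
    congr 1
    have h1 := Ent.marginal μ f habc (fun z => (z.1.2, z.2)) (j, k)
    have h2 : (fun x => ((f x).1.2, (f x).2)) = (fun x => (b x, c x)) := rfl
    rw [h2] at h1
    rw [h1, Fintype.sum_prod_type, Fintype.sum_prod_type]
    refine Finset.sum_congr rfl fun i _ => ?_
    simp only [Prod.mk.injEq]
    rw [Finset.sum_eq_single j, Finset.sum_eq_single k]
    · simp [hq]
    · intro k' _ hk'
      simp [hk']
    · intro h; exact absurd (Finset.mem_univ _) h
    · intro j' _ hj'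
      simp [hj']
    · intro h; exact absurd (Finset.mem_univ _) h
  rw [eabc, ec, eac, ebc, ← Finset.sum_add_distrib, ← Finset.sum_add_distrib]
  exact Finset.sum_le_sum fun k _ => Ent.matrix_submod (q k) (hq0 k)

/-- a partition generating a finite sigma-algebra -/
theorem Ent.exists_rep (P : FP Ω) : ∃ (k : ℕ) (a : Ω → Fin k), sg a = P.1 ∧ sg a ≤ mΩ := by
  obtain ⟨k, a, ha⟩ := P.2.2
  exact ⟨k, a, ha, ha.trans_le P.2.1⟩

theorem Ent.sg_translate {r : ℕ} [MulAction (FreeGroup (Fin r)) Ω]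
    [MeasurableConstSMul (FreeGroup (Fin r)) Ω] {ι : Type*} (g : FreeGroup (Fin r)) (P : FP Ω)
    (a : Ω → ι) (ha : sg a = P.1) : sg (fun x => a (g⁻¹ • x)) = (g • P).1 := by
  rw [FP.smul_val, ← ha, sg, sg, MeasurableSpace.comap_comp]
  rfl

/-- the entropy function of a probability space is an entropy function -/
theorem poly_hFP (r : ℕ) [MulAction (FreeGroup (Fin r)) Ω]
    [MeasurableConstSMul (FreeGroup (Fin r)) Ω] [SMulInvariantMeasure (FreeGroup (Fin r)) Ω μ] :
    Poly r (hFP μ) where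
  mono P Q := by
    obtain ⟨k, a, ha, ha'⟩ := Ent.exists_rep P
    obtain ⟨l, b, hb, hb'⟩ := Ent.exists_rep Q
    rw [Ent.hFP_eq μ P a ha, Ent.hFP_eq μ (P ⊔ Q) (fun x => (a x, b x))
      (by rw [sg_prod, ha, hb, FP.sup_val])]
    exact Ent.ent_le_prod μ a b ha' hb'
  submod P Q R := by
    obtain ⟨k, a, ha, ha'⟩ := Ent.exists_rep P
    obtain ⟨l, b, hb, hb'⟩ := Ent.exists_rep Q
    obtain ⟨m, c, hc, hc'⟩ := Ent.exists_rep R
    rw [Ent.hFP_eq μ R c hc, Ent.hFP_eq μ (P ⊔ R) (fun x => (a x, c x))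
      (by rw [sg_prod, ha, hc, FP.sup_val]), Ent.hFP_eq μ (Q ⊔ R) (fun x => (b x, c x))
      (by rw [sg_prod, hb, hc, FP.sup_val]),
      Ent.hFP_eq μ (P ⊔ Q ⊔ R) (fun x => ((a x, b x), c x)) (by
        have h1 : sg (fun x => ((fun x => (a x, b x)) x, c x)) = sg (fun x => (a x, b x)) ⊔ sg c :=
          sg_prod _ _
        refine h1.trans ?_
        rw [sg_prod, ha, hb, hc, FP.sup_val, FP.sup_val])]
    exact Ent.ent_submod μ a b c ha' hb' hc'
  inv g P := by
    obtain ⟨k, a, ha, ha'⟩ := Ent.exists_rep P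
    rw [Ent.hFP_eq μ P a ha, Ent.hFP_eq μ (g • P) (fun x => a (g⁻¹ • x))
      (Ent.sg_translate g P a ha), Ent.eq_sum, Ent.eq_sum]
    refine Finset.sum_congr rfl fun i _ => ?_
    congr 1
    have h1 : (fun x => a (g⁻¹ • x)) ⁻¹' {i} = (fun x => g⁻¹ • x) ⁻¹' (a ⁻¹' {i}) := rfl
    rw [h1, measureReal_def, measureReal_def, measure_preimage_smul]
  smul_sup g P Q := by
    apply Subtype.ext
    rw [FP.smul_val, FP.sup_val, FP.sup_val, FP.smul_val, FP.smul_val, MeasurableSpace.comap_sup]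
  smul_bot g := by
    apply Subtype.ext
    rw [FP.smul_val, FP.bot_val, MeasurableSpace.comap_bot]

/-- entropies of independent partitions add -/
theorem hFP_sup_of_indep (P Q : FP Ω)
    (h : ∀ s t, MeasurableSet[P.1] s → MeasurableSet[Q.1] t → μ (s ∩ t) = μ s * μ t) :
    hFP μ (P ⊔ Q) = hFP μ P + hFP μ Q := by
  obtain ⟨k, a, ha, ha'⟩ := Ent.exists_rep P
  obtain ⟨l, b, hb, hb'⟩ := Ent.exists_rep Q
  rw [Ent.hFP_eq μ P a ha, Ent.hFP_eq μ Q b hb, Ent.hFP_eq μ (P ⊔ Q) (fun x => (a x, b x))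
      (by rw [sg_prod, ha, hb, FP.sup_val]), Ent.eq_sum, Ent.eq_sum, Ent.eq_sum,
      Fintype.sum_prod_type]
  have h1 : ∀ i j, μ.real ((fun x => (a x, b x)) ⁻¹' {(i, j)}) =
      μ.real (a ⁻¹' {i}) * μ.real (b ⁻¹' {j}) := by
    intro i j
    have e1 : (fun x => (a x, b x)) ⁻¹' {(i, j)} = a ⁻¹' {i} ∩ b ⁻¹' {j} := by
      ext x; simp
    rw [e1, measureReal_def, measureReal_def, measureReal_def, h _ _ ?_ ?_, ENNReal.toReal_mul]
    · rw [← ha]; exact ⟨{i}, trivial, rfl⟩
    · rw [← hb]; exact ⟨{j}, trivial, rfl⟩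
  have hsum : ∀ {m : ℕ} (c : Ω → Fin m), sg c ≤ mΩ → ∑ i, μ.real (c ⁻¹' {i}) = 1 := by
    intro m c hc
    rw [sum_measureReal_preimage_singleton _ (fun x _ => Ent.measurable_fiber hc {x})]
    simp
  simp_rw [h1, Real.negMulLog_mul, Finset.sum_add_distrib, ← Finset.sum_mul, ← Finset.mul_sum,
    ← Finset.sum_mul]
  rw [hsum a ha', hsum b hb']
  ring

end

/-! ## Pull-back of partitions -/

section Pull

variable {Ω Ω' : Type*} [mΩ : MeasurableSpace Ω] [mΩ' : MeasurableSpace Ω']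

/-- pull-back of a finite partition under a measurable map -/
def pull (T : Ω → Ω') (hT : Measurable T) (P : FP Ω') : FP Ω :=
  ⟨MeasurableSpace.comap T P.1, by
    obtain ⟨h, k, a, ha⟩ := P.2
    refine ⟨(MeasurableSpace.comap_mono h).trans hT.comap_le, k, fun x => a (T x), ?_⟩
    rw [← ha, sg, MeasurableSpace.comap_comp]
    rfl⟩

theorem pull_val (T : Ω → Ω') (hT : Measurable T) (P : FP Ω') :
    (pull T hT P).1 = MeasurableSpace.comap T P.1 := rfl

theorem pull_sup (T : Ω → Ω') (hT : Measurable T) (P Q : FP Ω') :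
    pull T hT (P ⊔ Q) = pull T hT P ⊔ pull T hT Q := by
  apply Subtype.ext
  rw [FP.sup_val, pull_val, pull_val, pull_val, FP.sup_val, MeasurableSpace.comap_sup]

theorem pull_bot (T : Ω → Ω') (hT : Measurable T) : pull T hT (⊥ : FP Ω') = ⊥ := by
  apply Subtype.ext
  rw [pull_val, FP.bot_val, FP.bot_val, MeasurableSpace.comap_bot]

theorem pull_smul {G : Type*} [Group G] [MulAction G Ω] [MeasurableConstSMul G Ω]
    [MulAction G Ω'] [MeasurableConstSMul G Ω'] (T : Ω → Ω') (hT : Measurable T)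
    (hTG : ∀ (g : G) x, T (g • x) = g • T x) (g : G) (P : FP Ω') :
    pull T hT (g • P) = g • pull T hT P := by
  apply Subtype.ext
  rw [pull_val, FP.smul_val, FP.smul_val, pull_val, MeasurableSpace.comap_comp,
    MeasurableSpace.comap_comp]
  congr 1
  funext x
  simp [hTG]

theorem hFP_pull (μ : Measure Ω) (μ' : Measure Ω') (T : Ω → Ω') (hT : MeasurePreserving T μ μ')
    (P : FP Ω') : hFP μ (pull T hT.measurable P) = hFP μ' P := by
  obtain ⟨k, a, ha, ha'⟩ := Ent.exists_rep P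
  rw [Ent.hFP_eq μ' P a ha, Ent.hFP_eq μ (pull T hT.measurable P) (fun x => a (T x)) (by
    rw [pull_val, ← ha, sg, sg, MeasurableSpace.comap_comp]; rfl), Ent.eq_sum, Ent.eq_sum]
  refine Finset.sum_congr rfl fun i _ => ?_
  congr 1
  have h1 : (fun x => a (T x)) ⁻¹' {i} = T ⁻¹' (a ⁻¹' {i}) := rfl
  rw [h1, measureReal_def, measureReal_def,
    hT.measure_preimage (Ent.measurable_fiber ha' {i}).nullMeasurableSet]

theorem pull_mk {ι : Type*} [Finite ι] (T : Ω → Ω') (hT : Measurable T) (a : Ω' → ι)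
    (ha : sg a ≤ mΩ') (ha' : sg (fun x => a (T x)) ≤ mΩ) :
    pull T hT (mkFP a ha) = mkFP (fun x => a (T x)) ha' := by
  apply Subtype.ext
  rw [pull_val]
  change MeasurableSpace.comap T (sg a) = sg (fun x => a (T x))
  rw [sg, sg, MeasurableSpace.comap_comp]
  rfl

end Pull

end Pool.Agent.Lib.MP_46d37e_an
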