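import Pool.Agent.Lib.MP_46d37e_an.Ent

/-!
# Conditional entropy as an integral over the fibres
-/

set_option autoImplicit false

namespace Pool.Agent.Lib.MP_46d37e_an

open MeasureTheory Filter Topology
open scoped ENNReal symmDiff

variable {Ω : Type*} {𝓖 : MeasurableSpace Ω} [mΩ : MeasurableSpace Ω] (μ : Measure Ω)
  [IsProbabilityMeasure μ]

theorem fiber_negMulLog_le_one (x : ℝ) (h0 : 0 ≤ x) : Real.negMulLog x ≤ 1 := by
  rcases h0.eq_or_lt with h | h
  · rw [← h]; simp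
  · have h2 := Real.one_sub_inv_le_log_of_pos h
    unfold Real.negMulLog
    have h3 : x * (1 - x⁻¹) ≤ x * Real.log x := mul_le_mul_of_nonneg_left h2 h0
    have h4 : x * (1 - x⁻¹) = x - 1 := by field_simp
    linarith

theorem fiber_abs_negMulLog (x : ℝ) (h0 : 0 ≤ x) (h1 : x ≤ 1) : ‖Real.negMulLog x‖ ≤ 1 := by
  rw [Real.norm_of_nonneg (Real.negMulLog_nonneg h0 h1)]
  exact fiber_negMulLog_le_one x h0

omit [IsProbabilityMeasure μ] in
theorem fiber_measurableSet {κ : Type*} (a : Ω → κ) (ha : sg a ≤ mΩ) (t : Set κ) :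
    MeasurableSet (a ⁻¹' t) := ha _ ⟨t, trivial, rfl⟩

/-- conditional probability of `η = i` given `a = j` -/
noncomputable def fiberC {ι κ : Type*} (η : Ω → ι) (a : Ω → κ) (i : ι) (j : κ) : ℝ :=
  μ.real (a ⁻¹' {j} ∩ η ⁻¹' {i}) / μ.real (a ⁻¹' {j})

omit [IsProbabilityMeasure μ] in
theorem fiberC_nonneg {ι κ : Type*} (η : Ω → ι) (a : Ω → κ) (i : ι) (j : κ) :
    0 ≤ fiberC μ η a i j := div_nonneg measureReal_nonneg measureReal_nonneg

theorem fiberC_le_one {ι κ : Type*} (η : Ω → ι) (a : Ω → κ) (i : ι) (j : κ) :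
    fiberC μ η a i j ≤ 1 := by
  unfold fiberC
  exact div_le_one_of_le₀ (measureReal_mono Set.inter_subset_left) measureReal_nonneg

theorem fiber_mul {ι κ : Type*} (η : Ω → ι) (a : Ω → κ) (i : ι) (j : κ) :
    μ.real (a ⁻¹' {j} ∩ η ⁻¹' {i}) = μ.real (a ⁻¹' {j}) * fiberC μ η a i j := by
  unfold fiberC
  by_cases h : μ.real (a ⁻¹' {j}) = 0
  · rw [h, zero_mul]
    have : μ.real (a ⁻¹' {j} ∩ η ⁻¹' {i}) ≤ μ.real (a ⁻¹' {j}) :=
      measureReal_mono Set.inter_subset_left
    linarith [measureReal_nonneg (μ := μ) (s := a ⁻¹' {j} ∩ η ⁻¹' {i})]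
  · rw [mul_div_cancel₀ _ h]

/-- integral of a function of a map with finitely many values -/
theorem fiber_integral {κ : Type*} [Fintype κ] (ν : Measure Ω) [IsFiniteMeasure ν] (a : Ω → κ)
    (ha : sg a ≤ mΩ) (φ : κ → ℝ) :
    ∫ x, φ (a x) ∂ν = ∑ j, ν.real (a ⁻¹' {j}) * φ j := by
  let _ : MeasurableSpace κ := ⊤
  have ham : Measurable a := fun t ht => ha _ ⟨t, ht, rfl⟩
  have hφ : Measurable φ := measurable_from_top
  rw [← integral_map (φ := a) (f := φ) ham.aemeasurable hφ.aestronglyMeasurable]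
  have : IsFiniteMeasure (ν.map a) := Measure.isFiniteMeasure_map ν a
  rw [integral_fintype (Integrable.of_finite)]
  refine Finset.sum_congr rfl fun j _ => ?_
  rw [map_measureReal_apply ham (MeasurableSet.of_discrete), smul_eq_mul]

theorem fiber_sum {ι κ : Type*} [Fintype ι] (η : Ω → ι) (hη : sg η ≤ mΩ) (a : Ω → κ) (j : κ) :
    ∑ i, μ.real (a ⁻¹' {j} ∩ η ⁻¹' {i}) = μ.real (a ⁻¹' {j}) := by
  have h := fiber_integral (μ.restrict (a ⁻¹' {j})) η hη (fun _ => 1)
  simp only [mul_one, integral_const, smul_eq_mul, measureReal_restrict_apply_univ] at h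
  rw [h]
  refine Finset.sum_congr rfl fun i _ => ?_
  rw [measureReal_restrict_apply (fiber_measurableSet η hη {i}), Set.inter_comm]

/-- conditional entropy with respect to a finite partition as an integral -/
theorem fiber_finite {ι κ : Type*} [Fintype ι] [Fintype κ] (η : Ω → ι) (hη : sg η ≤ mΩ)
    (a : Ω → κ) (ha : sg a ≤ mΩ) :
    ent μ (fun x => (η x, a x)) - ent μ a
      = ∫ x, ∑ i, Real.negMulLog (fiberC μ η a i (a x)) ∂μ := by
  rw [fiber_integral μ a ha (fun j => ∑ i, Real.negMulLog (fiberC μ η a i j)), ent_eq_sum,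
    ent_eq_sum, Fintype.sum_prod_type_right, ← Finset.sum_sub_distrib]
  refine Finset.sum_congr rfl fun j _ => ?_
  have h1 : ∀ i, μ.real ((fun x => (η x, a x)) ⁻¹' {(i, j)}) =
      μ.real (a ⁻¹' {j}) * fiberC μ η a i j := by
    intro i
    rw [← fiber_mul]
    congr 1
    ext x
    simp only [Set.mem_preimage, Set.mem_singleton_iff, Prod.mk.injEq, Set.mem_inter_iff]
    tauto
  simp_rw [h1, Real.negMulLog_mul, Finset.sum_add_distrib]
  rw [← Finset.sum_mul, ← Finset.mul_sum]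
  by_cases h0 : μ.real (a ⁻¹' {j}) = 0
  · rw [h0]; simp
  · have h2 : ∑ i, fiberC μ η a i j = 1 := by
      have h3 := fiber_sum μ η hη a j
      simp_rw [fiber_mul, ← Finset.mul_sum] at h3
      exact mul_left_cancel₀ h0 (by rw [h3, mul_one])
    rw [h2]
    ring

theorem fiber_condExp_finite {ι κ : Type*} [Fintype κ] (η : Ω → ι) (hη : sg η ≤ mΩ)
    (a : Ω → κ) (ha : sg a ≤ mΩ) (i : ι) :
    (fun x => fiberC μ η a i (a x)) =ᵐ[μ]
      μ[(η ⁻¹' {i}).indicator (fun _ => (1 : ℝ)) | sg a] := by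
  have hi := fiber_measurableSet η hη {i}
  have hmeas : Measurable[sg a] (fun x => fiberC μ η a i (a x)) := by
    intro t _
    exact ⟨(fiberC μ η a i) ⁻¹' t, trivial, rfl⟩
  have hint : Integrable (fun x => fiberC μ η a i (a x)) μ := by
    refine Integrable.of_bound (hmeas.mono ha le_rfl).aestronglyMeasurable 1 ?_
    refine Eventually.of_forall fun x => ?_
    rw [Real.norm_of_nonneg (fiberC_nonneg μ η a i _)]
    exact fiberC_le_one μ η a i _
  refine ae_eq_condExp_of_forall_setIntegral_eq ha ?_ ?_ ?_ ?_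
  · exact (integrable_const (1 : ℝ)).indicator hi
  · intro s _ _
    exact hint.integrableOn
  · rintro s ⟨t, _, rfl⟩ _
    rw [fiber_integral (μ.restrict (a ⁻¹' t)) a ha, integral_indicator hi,
      Measure.restrict_restrict hi]
    simp only [integral_const, smul_eq_mul, mul_one, measureReal_restrict_apply_univ]
    have h1 := fiber_integral (μ.restrict (η ⁻¹' {i} ∩ a ⁻¹' t)) a ha (fun _ => 1)
    simp only [mul_one, integral_const, smul_eq_mul, measureReal_restrict_apply_univ] at h1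
    rw [h1]
    refine Finset.sum_congr rfl fun j _ => ?_
    have hj := fiber_measurableSet a ha {j}
    rw [measureReal_restrict_apply hj, measureReal_restrict_apply hj]
    by_cases hjt : j ∈ t
    · have e1 : a ⁻¹' {j} ∩ a ⁻¹' t = a ⁻¹' {j} := by
        ext x
        simp only [Set.mem_inter_iff, Set.mem_preimage, Set.mem_singleton_iff]
        constructor
        · exact fun h => h.1
        · exact fun h => ⟨h, by rw [h]; exact hjt⟩
      have e2 : a ⁻¹' {j} ∩ (η ⁻¹' {i} ∩ a ⁻¹' t) = a ⁻¹' {j} ∩ η ⁻¹' {i} := by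
        rw [Set.inter_comm (η ⁻¹' {i}), ← Set.inter_assoc, e1]
      rw [e1, e2, fiber_mul]
    · have e1 : a ⁻¹' {j} ∩ a ⁻¹' t = ∅ := by
        ext x
        simp only [Set.mem_inter_iff, Set.mem_preimage, Set.mem_singleton_iff,
          Set.mem_empty_iff_false, iff_false, not_and]
        intro h
        rw [h]; exact hjt
      have e2 : a ⁻¹' {j} ∩ (η ⁻¹' {i} ∩ a ⁻¹' t) = ∅ := by
        rw [Set.inter_comm (η ⁻¹' {i}), ← Set.inter_assoc, e1, Set.empty_inter]
      rw [e1, e2]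
      simp
  · exact hmeas.stronglyMeasurable.aestronglyMeasurable

theorem fiber_cnd {ι : Type*} [Fintype ι] (η : Ω → ι) (hη : sg η ≤ mΩ) (P : FP Ω) :
    ∃ (k : ℕ) (a : Ω → Fin k), sg a = P.1 ∧
      cnd (hFP μ) (mkFP η hη) P = ∫ x, ∑ i, Real.negMulLog (fiberC μ η a i (a x)) ∂μ := by
  obtain ⟨h, k, a, ha⟩ := id P.2
  have ham : sg a ≤ mΩ := by rw [ha]; exact h
  refine ⟨k, a, ha, ?_⟩
  have hP : P = mkFP a ham := Subtype.ext ha.symm
  have hpair : sg (fun x => (η x, a x)) ≤ mΩ := by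
    rw [sg_prod]
    exact sup_le hη ham
  have hsup : mkFP η hη ⊔ P = mkFP (fun x => (η x, a x)) hpair := by
    rw [hP]
    apply Subtype.ext
    change sg η ⊔ sg a = sg (fun x => (η x, a x))
    rw [sg_prod]
  unfold cnd
  rw [hsup, hFP_mk]
  rw [hP, hFP_mk]
  exact fiber_finite μ η hη a ham

/-- If the increasing sequence of finite sigma-algebras `m n ≤ 𝓖` generates `𝓖` modulo null sets,
and `p i` is a version of the conditional probability of `η = i` given `𝓖`, then
`H(η | m n)` tends to `∫ ∑_i - p_i log p_i`. -/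
theorem fiber_entropy (h𝓖 : 𝓖 ≤ mΩ) (m : ℕ → FP Ω) (hm : Monotone m)
    (hm𝓖 : ∀ n, (m n).1 ≤ 𝓖)
    (hgen : ∀ E : Set Ω, MeasurableSet[𝓖] E → ∃ E' : Set Ω,
      MeasurableSet[⨆ n, (m n).1] E' ∧ μ (E ∆ E') = 0)
    {ι : Type*} [Fintype ι] (η : Ω → ι) (hη : sg η ≤ mΩ) (p : ι → Ω → ℝ)
    (hp : ∀ i, Measurable[𝓖] (p i)) (hp0 : ∀ i x, 0 ≤ p i x) (hp1 : ∀ i x, p i x ≤ 1)
    (hint : ∀ i (D : Set Ω), MeasurableSet[𝓖] D → ∫ x in D, p i x ∂μ = μ.real (D ∩ η ⁻¹' {i})) :
    Tendsto (fun n => cnd (hFP μ) (mkFP η hη) (m n)) atTop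
      (𝓝 (∫ x, ∑ i, Real.negMulLog (p i x) ∂μ)) := by
  have hS𝓖 : (⨆ n, (m n).1) ≤ 𝓖 := iSup_le hm𝓖
  have hS : (⨆ n, (m n).1) ≤ mΩ := hS𝓖.trans h𝓖
  let ℱ : Filtration ℕ mΩ := ⟨fun n => (m n).1, fun i j hij => hm hij, fun n => (m n).2.1⟩
  have hone : ∀ i, Integrable ((η ⁻¹' {i}).indicator (fun _ => (1 : ℝ))) μ := fun i =>
    (integrable_const (1 : ℝ)).indicator (fiber_measurableSet η hη {i})
  have hset : ∀ i (D : Set Ω), MeasurableSet D →
      ∫ x in D, (η ⁻¹' {i}).indicator (fun _ => (1 : ℝ)) x ∂μ = μ.real (D ∩ η ⁻¹' {i}) := by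
    intro i D hD
    rw [integral_indicator (fiber_measurableSet η hη {i}),
      Measure.restrict_restrict (fiber_measurableSet η hη {i})]
    simp only [integral_const, smul_eq_mul, mul_one, measureReal_restrict_apply_univ]
    rw [Set.inter_comm]
  have hlim : ∀ i, μ[(η ⁻¹' {i}).indicator (fun _ => (1 : ℝ)) | ⨆ n, (m n).1] =ᵐ[μ] p i := by
    intro i
    have h1 : p i =ᵐ[μ] μ[(η ⁻¹' {i}).indicator (fun _ => (1 : ℝ)) | 𝓖] := by
      refine ae_eq_condExp_of_forall_setIntegral_eq h𝓖 (hone i) ?_ ?_ ?_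
      · intro s _ _
        refine Integrable.integrableOn ?_
        refine Integrable.of_bound ((hp i).mono h𝓖 le_rfl).aestronglyMeasurable 1 ?_
        refine Eventually.of_forall fun x => ?_
        rw [Real.norm_of_nonneg (hp0 i x)]
        exact hp1 i x
      · intro s hs _
        rw [hint i s hs, hset i s (h𝓖 _ hs)]
      · exact (hp i).stronglyMeasurable.aestronglyMeasurable
    have h2 : μ[(η ⁻¹' {i}).indicator (fun _ => (1 : ℝ)) | ⨆ n, (m n).1] =ᵐ[μ]
        μ[(η ⁻¹' {i}).indicator (fun _ => (1 : ℝ)) | 𝓖] := by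
      refine ae_eq_condExp_of_forall_setIntegral_eq h𝓖 (hone i) ?_ ?_ ?_
      · intro s _ _
        exact integrable_condExp.integrableOn
      · intro s hs _
        obtain ⟨E', hE', hE0⟩ := hgen s hs
        have hae : s =ᵐ[μ] E' := measure_symmDiff_eq_zero_iff.mp hE0
        rw [setIntegral_congr_set hae, setIntegral_congr_set hae,
          setIntegral_condExp hS (hone i) hE']
      · exact (stronglyMeasurable_condExp.mono hS𝓖).aestronglyMeasurable
    exact h2.trans h1.symm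
  choose k a hak hcnd using fun n => fiber_cnd μ η hη (m n)
  simp_rw [hcnd]
  have ham : ∀ n, sg (a n) ≤ mΩ := fun n => by rw [hak n]; exact (m n).2.1
  refine tendsto_integral_of_dominated_convergence (fun _ => (Fintype.card ι : ℝ)) ?_ ?_ ?_ ?_
  · intro n
    refine Measurable.aestronglyMeasurable ?_
    refine Finset.measurable_sum _ fun i _ => ?_
    refine Real.continuous_negMulLog.measurable.comp ?_
    intro t _
    exact ham n _ ⟨(fiberC μ η (a n) i) ⁻¹' t, trivial, rfl⟩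
  · exact integrable_const _
  · intro n
    refine Eventually.of_forall fun x => ?_
    refine (norm_sum_le _ _).trans ?_
    refine (Finset.sum_le_card_nsmul _ _ 1 fun i _ => ?_).trans ?_
    · exact fiber_abs_negMulLog _ (fiberC_nonneg μ η _ i _) (fiberC_le_one μ η _ i _)
    · simp [Finset.card_univ]
  · have hlevy : ∀ i, ∀ᵐ x ∂μ, Tendsto (fun n =>
        μ[(η ⁻¹' {i}).indicator (fun _ => (1 : ℝ)) | ℱ n] x) atTop
        (𝓝 (μ[(η ⁻¹' {i}).indicator (fun _ => (1 : ℝ)) | ⨆ n, ℱ n] x)) :=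
      fun i => tendsto_ae_condExp _
    have hfin : ∀ i, ∀ᵐ x ∂μ, ∀ n, fiberC μ η (a n) i (a n x) =
        μ[(η ⁻¹' {i}).indicator (fun _ => (1 : ℝ)) | ℱ n] x := by
      intro i
      rw [ae_all_iff]
      intro n
      have h := fiber_condExp_finite μ η hη (a n) (ham n) i
      rw [hak n] at h
      exact h
    have h1 := ae_all_iff.mpr hlevy
    have h2 := ae_all_iff.mpr hfin
    have h3 := ae_all_iff.mpr hlim
    filter_upwards [h1, h2, h3] with x hx1 hx2 hx3
    refine tendsto_finsetSum _ fun i _ => ?_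
    refine (Real.continuous_negMulLog.tendsto _).comp ?_
    have h4 := hx1 i
    have h5 : (fun n => fiberC μ η (a n) i (a n x)) =
        fun n => μ[(η ⁻¹' {i}).indicator (fun _ => (1 : ℝ)) | ℱ n] x :=
      funext fun n => hx2 i n
    rw [h5, ← hx3 i]
    exact h4

end Pool.Agent.Lib.MP_46d37e_an
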