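import Pool.Agent.Lib.MP_46d37e_an.CompactGroup
import Pool.Agent.Lib.MP_46d37e_an.DualFacts
import Pool.Agent.Lib.MP_46d37e_an.DualCount

/-!
# The addition formula for the f-invariant of algebraic actions
-/

set_option autoImplicit false

namespace Pool.Agent.Lib.MP_46d37e_an

open MeasureTheory Filter Topology
open scoped ENNReal symmDiff

section

variable {X : Type*} [Group X] [TopologicalSpace X] [IsTopologicalGroup X] [CompactSpace X]
  [T2Space X] [SecondCountableTopology X] [mX : MeasurableSpace X] [BorelSpace X]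

theorem smulInvariant_haar {r : ℕ} [MulDistribMulAction (FreeGroup (Fin r)) X]
    [ContinuousConstSMul (FreeGroup (Fin r)) X] (μ : Measure X) [IsProbabilityMeasure μ]
    [μ.IsHaarMeasure] : SMulInvariantMeasure (FreeGroup (Fin r)) X μ := by
  refine ⟨fun g s hs => ?_⟩
  have h := measurePreserving_hom μ μ (MulDistribMulAction.toMonoidHom X g)
    (continuous_const_smul g) (fun x => ⟨g⁻¹ • x, smul_inv_smul g x⟩)
  exact h.measure_preimage hs.nullMeasurableSet

end

section

variable {r : ℕ} {M : Type*} [AddCommGroup M] [TopologicalSpace M] [DiscreteTopology M]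
  [Module (ZF r) M]

theorem sg_le_of_measurable {Ω : Type*} [mΩ : MeasurableSpace Ω] {k : ℕ} {α : Ω → Fin k}
    (hα : Measurable α) : sg α ≤ mΩ := hα.comap_le

/-- existence and uniqueness of the f-invariant -/
theorem isFInv_fI [Countable M] {k : ℕ} (α : DualGrp M → Fin k) (hα : IsGenPart r M α) :
    IsFInv r M (fI r (hFP (haarP M)) (mkFP α (sg_le_of_measurable hα.1))) := by
  have : SMulInvariantMeasure (FreeGroup (Fin r)) (DualGrp M) (haarP M) :=
    smulInvariant_haar (haarP M)
  intro k' β hβ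
  rw [fI_eq_of_generating (haarP M) α (sg_le_of_measurable hα.1) β (sg_le_of_measurable hβ.1)
    hα.2 hβ.2]
  simp_rw [bowenF_ballJoin (haarP M) β (sg_le_of_measurable hβ.1)]
  exact tendsto_fI (poly_hFP (haarP M) r) _

end

/-- **Addition formula.** -/
theorem addition_formula (r : ℕ) (A B C : Type*)
    [AddCommGroup A] [TopologicalSpace A] [DiscreteTopology A] [Module (ZF r) A]
    [AddCommGroup B] [TopologicalSpace B] [DiscreteTopology B] [Module (ZF r) B]
    [AddCommGroup C] [TopologicalSpace C] [DiscreteTopology C] [Module (ZF r) C]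
    (i : A →ₗ[ZF r] B) (q : B →ₗ[ZF r] C) (hi : Function.Injective i)
    (hq : Function.Surjective q) (hex : Function.Exact i q)
    (hA : ∃ (k : ℕ) (α : DualGrp A → Fin k), IsGenPart r A α)
    (hB : ∃ (k : ℕ) (α : DualGrp B → Fin k), IsGenPart r B α)
    (hC : ∃ (k : ℕ) (α : DualGrp C → Fin k), IsGenPart r C α) :
    ∃ fA fB fC : EReal, fA < ⊤ ∧ fB < ⊤ ∧ fC < ⊤ ∧ IsFInv r A fA ∧ IsFInv r B fB ∧
      IsFInv r C fC ∧ fB = fA + fC := by
  obtain ⟨kA, α, hα⟩ := hA
  obtain ⟨kB, β, hβ⟩ := hB
  obtain ⟨kC, γ, hγ⟩ := hC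
  have : Countable A := countable_of_generating α hα.1 hα.2
  have : Countable B := countable_of_generating β hβ.1 hβ.2
  have : Countable C := countable_of_generating γ hγ.1 hγ.2
  refine ⟨fI r (hFP (haarP A)) (mkFP α (sg_le_of_measurable hα.1)),
    fI r (hFP (haarP B)) (mkFP β (sg_le_of_measurable hβ.1)),
    fI r (hFP (haarP C)) (mkFP γ (sg_le_of_measurable hγ.1)),
    fI_lt_top _, fI_lt_top _, fI_lt_top _, isFInv_fI α hα, isFInv_fI β hβ, isFInv_fI γ hγ, ?_⟩
  exact compact_group_formula (haarP B) (haarP A) (haarP C)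
    (dualMap i.toAddMonoidHom) (continuous_dualMap _) (surjective_dualMap _ hi)
    (dualMap_smul i)
    (dualMap q.toAddMonoidHom) (continuous_dualMap _) (injective_dualMap _ hq)
    (dualMap_smul q)
    (exact_dualMap i.toAddMonoidHom q.toAddMonoidHom hq (fun b => (hex b).trans Iff.rfl))
    β (sg_le_of_measurable hβ.1) hβ.2 α (sg_le_of_measurable hα.1) hα.2
    γ (sg_le_of_measurable hγ.1) hγ.2

end Pool.Agent.Lib.MP_46d37e_an
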