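import Mathlib

/-!
# Abstract entropy functions on semilattices with an action of a free group

`L` is a join semilattice (of finite partitions, `a ⊔ b` is the common refinement), the free group
of rank `r` acts on `L`, and `h : L → ℝ` is an invariant, monotone, submodular function.
-/

set_option autoImplicit false

namespace Pool.Agent.Lib.MP_46d37e_an

open Filter Topology

variable {r : ℕ} {L : Type*} [SemilatticeSup L] [OrderBot L] [MulAction (FreeGroup (Fin r)) L]

/-- an invariant entropy function -/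
structure Poly (r : ℕ) {L : Type*} [SemilatticeSup L] [OrderBot L]
    [MulAction (FreeGroup (Fin r)) L] (h : L → ℝ) : Prop where
  mono : ∀ a b : L, h a ≤ h (a ⊔ b)
  submod : ∀ a b c : L, h (a ⊔ b ⊔ c) + h c ≤ h (a ⊔ c) + h (b ⊔ c)
  inv : ∀ (g : FreeGroup (Fin r)) (a : L), h (g • a) = h a
  smul_sup : ∀ (g : FreeGroup (Fin r)) (a b : L), g • (a ⊔ b) = g • a ⊔ g • b
  smul_bot : ∀ (g : FreeGroup (Fin r)), g • (⊥ : L) = ⊥

/-- conditional entropy -/
def cnd (h : L → ℝ) (a b : L) : ℝ := h (a ⊔ b) - h b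

/-- Bowen's functional `F` -/
noncomputable def Fn (r : ℕ) {L : Type*} [SemilatticeSup L] [OrderBot L]
    [MulAction (FreeGroup (Fin r)) L] (h : L → ℝ) (a : L) : ℝ :=
  (1 - 2 * (r : ℝ)) * h a + ∑ i : Fin r, h (a ⊔ FreeGroup.of i • a)

/-- one step: the join of `a` and of its translates by the generators and their inverses -/
def stp (r : ℕ) {L : Type*} [SemilatticeSup L] [OrderBot L]
    [MulAction (FreeGroup (Fin r)) L] (a : L) : L :=
  a ⊔ Finset.univ.sup fun i : Fin r => FreeGroup.of i • a ⊔ (FreeGroup.of i)⁻¹ • a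

/-- the join of the translates of `a` by the ball of radius `n` -/
def pw (r : ℕ) {L : Type*} [SemilatticeSup L] [OrderBot L]
    [MulAction (FreeGroup (Fin r)) L] : ℕ → L → L
  | 0, a => a
  | n + 1, a => stp r (pw r n a)

/-- the f-invariant of `a` -/
noncomputable def fI (r : ℕ) {L : Type*} [SemilatticeSup L] [OrderBot L]
    [MulAction (FreeGroup (Fin r)) L] (h : L → ℝ) (a : L) : EReal :=
  ⨅ n, (Fn r h (pw r n a) : EReal)

/-- `b` is generating for the entropy function `h` -/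
def Gen (r : ℕ) {L : Type*} [SemilatticeSup L] [OrderBot L]
    [MulAction (FreeGroup (Fin r)) L] (h : L → ℝ) (b : L) : Prop :=
  ∀ (A : L) (δ : ℝ), 0 < δ → ∃ (n : ℕ) (A' : L), cnd h A' (pw r n b) = 0 ∧
    cnd h A A' < δ ∧ cnd h A' A < δ

/-- entropy relative to the invariant sigma-algebra generated by `c` -/
noncomputable def rel (r : ℕ) {L : Type*} [SemilatticeSup L] [OrderBot L]
    [MulAction (FreeGroup (Fin r)) L] (h : L → ℝ) (c a : L) : ℝ :=
  ⨅ m, cnd h a (pw r m c)

section facts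
variable {h : L → ℝ}

theorem Poly.cnd_nonneg (hh : Poly r h) (a b : L) : 0 ≤ cnd h a b := by
  have := hh.mono b a
  rw [sup_comm] at this
  unfold cnd; linarith

theorem Poly.h_mono (hh : Poly r h) {a b : L} (hab : a ≤ b) : h a ≤ h b := by
  have := hh.mono a b
  rwa [sup_eq_right.2 hab] at this

omit [OrderBot L] in
theorem poly_cnd_chain (a b d : L) : cnd h (a ⊔ b) d = cnd h a (b ⊔ d) + cnd h b d := by
  unfold cnd; rw [sup_assoc]; ring

theorem Poly.cnd_anti (hh : Poly r h) {a b b' : L} (hb : b ≤ b') : cnd h a b' ≤ cnd h a b := by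
  have := hh.submod a b' b
  rw [sup_eq_left.2 hb, sup_assoc, sup_eq_left.2 hb] at this
  unfold cnd; linarith

theorem Poly.cnd_mono (hh : Poly r h) {a a' b : L} (ha : a ≤ a') : cnd h a b ≤ cnd h a' b := by
  have := hh.h_mono (sup_le_sup_right ha b)
  unfold cnd; linarith

omit [OrderBot L] in
theorem poly_cnd_of_le {a b : L} (hab : a ≤ b) : cnd h a b = 0 := by
  unfold cnd; rw [sup_eq_right.2 hab]; ring

theorem Poly.cnd_smul (hh : Poly r h) (g : FreeGroup (Fin r)) (a b : L) :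
    cnd h (g • a) (g • b) = cnd h a b := by
  unfold cnd; rw [← hh.smul_sup, hh.inv, hh.inv]

theorem Poly.cnd_sup_le (hh : Poly r h) (a b d : L) :
    cnd h (a ⊔ b) d ≤ cnd h a d + cnd h b d := by
  rw [poly_cnd_chain]
  have := hh.cnd_anti (a := a) (le_sup_right : d ≤ b ⊔ d)
  linarith

theorem Poly.cnd_triangle (hh : Poly r h) (a b c : L) :
    cnd h a c ≤ cnd h a b + cnd h b c := by
  have h1 := hh.cnd_mono (b := c) (le_sup_left : a ≤ a ⊔ b)
  rw [poly_cnd_chain] at h1
  have h2 := hh.cnd_anti (a := a) (le_sup_left : b ≤ b ⊔ c)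
  linarith

theorem Poly.smul_mono (hh : Poly r h) (g : FreeGroup (Fin r)) {a b : L} (hab : a ≤ b) :
    g • a ≤ g • b := by
  have := hh.smul_sup g a b
  rw [sup_eq_right.2 hab] at this
  rw [this]; exact le_sup_left

theorem Poly.cnd_finset_sup (hh : Poly r h) {ι : Type*} (s : Finset ι) (f : ι → L) (d : L) :
    cnd h (s.sup f) d ≤ ∑ i ∈ s, cnd h (f i) d := by
  classical
  induction s using Finset.induction_on with
  | empty => simp [cnd]
  | insert i s hi ih =>
    rw [Finset.sup_insert, Finset.sum_insert hi]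
    have := hh.cnd_sup_le (f i) (s.sup f) d
    linarith

theorem poly_le_stp (a : L) : a ≤ stp r a := le_sup_left

theorem poly_of_smul_le_stp (i : Fin r) (a : L) : FreeGroup.of i • a ≤ stp r a :=
  le_sup_left.trans ((Finset.le_sup (f := fun i : Fin r => FreeGroup.of i • a ⊔
    (FreeGroup.of i)⁻¹ • a) (Finset.mem_univ i)).trans le_sup_right)

theorem poly_inv_smul_le_stp (i : Fin r) (a : L) : (FreeGroup.of i)⁻¹ • a ≤ stp r a :=
  le_sup_right.trans ((Finset.le_sup (f := fun i : Fin r => FreeGroup.of i • a ⊔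
    (FreeGroup.of i)⁻¹ • a) (Finset.mem_univ i)).trans le_sup_right)

theorem Poly.stp_mono (hh : Poly r h) {a b : L} (hab : a ≤ b) : stp r a ≤ stp r b :=
  sup_le_sup hab (Finset.sup_mono_fun fun i _ =>
    sup_le_sup (hh.smul_mono _ hab) (hh.smul_mono _ hab))

theorem Poly.pw_mono_right (hh : Poly r h) (n : ℕ) {a b : L} (hab : a ≤ b) :
    pw r n a ≤ pw r n b := by
  induction n with
  | zero => exact hab
  | succ n ih => exact hh.stp_mono ih

theorem poly_le_pw (n : ℕ) (a : L) : a ≤ pw r n a := by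
  induction n with
  | zero => exact le_rfl
  | succ n ih => exact ih.trans (poly_le_stp _)

theorem poly_pw_pw (m n : ℕ) (a : L) : pw r m (pw r n a) = pw r (m + n) a := by
  induction m with
  | zero => rw [Nat.zero_add]; rfl
  | succ m ih => rw [Nat.succ_add]; exact congrArg (stp r) ih

theorem Poly.cnd_stp (hh : Poly r h) (a b : L) :
    cnd h (stp r a) (stp r b) ≤ (2 * (r : ℝ) + 1) * cnd h a b := by
  have h1 := hh.cnd_sup_le a (Finset.univ.sup fun i : Fin r => FreeGroup.of i • a ⊔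
    (FreeGroup.of i)⁻¹ • a) (stp r b)
  have h2 := hh.cnd_finset_sup Finset.univ (fun i : Fin r => FreeGroup.of i • a ⊔
    (FreeGroup.of i)⁻¹ • a) (stp r b)
  have h3 : ∑ i : Fin r, cnd h (FreeGroup.of i • a ⊔ (FreeGroup.of i)⁻¹ • a) (stp r b) ≤
      ∑ _i : Fin r, 2 * cnd h a b := by
    refine Finset.sum_le_sum fun i _ => ?_
    have h4 := hh.cnd_sup_le (FreeGroup.of i • a) ((FreeGroup.of i)⁻¹ • a) (stp r b)
    have h5 := hh.cnd_anti (a := FreeGroup.of i • a) (poly_of_smul_le_stp i b)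
    have h6 := hh.cnd_anti (a := (FreeGroup.of i)⁻¹ • a) (poly_inv_smul_le_stp i b)
    rw [hh.cnd_smul] at h5 h6
    linarith
  rw [Finset.sum_const, Finset.card_univ, Fintype.card_fin, nsmul_eq_mul] at h3
  have h7 := hh.cnd_anti (a := a) (poly_le_stp (r := r) b)
  have h8 : cnd h (stp r a) (stp r b) = cnd h (a ⊔ (Finset.univ.sup fun i : Fin r =>
    FreeGroup.of i • a ⊔ (FreeGroup.of i)⁻¹ • a)) (stp r b) := rfl
  rw [h8]
  linarith

theorem Poly.cnd_pw (hh : Poly r h) (n : ℕ) (a b : L) :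
    cnd h (pw r n a) (pw r n b) ≤ (2 * (r : ℝ) + 1) ^ n * cnd h a b := by
  induction n with
  | zero => rw [pow_zero, one_mul]; exact le_rfl
  | succ n ih =>
    have h1 := hh.cnd_stp (pw r n a) (pw r n b)
    have h2 : (2 * (r : ℝ) + 1) * cnd h (pw r n a) (pw r n b) ≤
        (2 * (r : ℝ) + 1) * ((2 * (r : ℝ) + 1) ^ n * cnd h a b) :=
      mul_le_mul_of_nonneg_left ih (by positivity)
    calc cnd h (pw r (n+1) a) (pw r (n+1) b) ≤ (2 * (r : ℝ) + 1) * cnd h (pw r n a) (pw r n b) := h1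
      _ ≤ _ := h2
      _ = _ := by ring

/-- the increment of `F` -/
theorem Poly.Fn_sup (hh : Poly r h) (x y : L) :
    Fn r h (x ⊔ y) = Fn r h y + ((1 - 2 * (r : ℝ)) * cnd h x y +
      ∑ i : Fin r, cnd h (x ⊔ FreeGroup.of i • x) (y ⊔ FreeGroup.of i • y)) := by
  have h1 : ∀ i : Fin r, h ((x ⊔ y) ⊔ FreeGroup.of i • (x ⊔ y)) =
      h (y ⊔ FreeGroup.of i • y) + cnd h (x ⊔ FreeGroup.of i • x) (y ⊔ FreeGroup.of i • y) := by
    intro i
    unfold cnd
    rw [hh.smul_sup, sup_sup_sup_comm]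
    ring
  unfold Fn
  rw [Finset.sum_congr rfl fun i _ => h1 i, Finset.sum_add_distrib]
  unfold cnd
  ring

/-- adding an element of small conditional entropy -/
theorem Poly.Fn_sup_le (hh : Poly r h) (x y : L) :
    Fn r h (x ⊔ y) ≤ Fn r h y + cnd h x y := by
  rw [hh.Fn_sup]
  have h1 : ∑ i : Fin r, cnd h (x ⊔ FreeGroup.of i • x) (y ⊔ FreeGroup.of i • y) ≤
      ∑ _i : Fin r, 2 * cnd h x y := by
    refine Finset.sum_le_sum fun i _ => ?_
    have h4 := hh.cnd_sup_le x (FreeGroup.of i • x) (y ⊔ FreeGroup.of i • y)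
    have h5 := hh.cnd_anti (a := x) (le_sup_left : y ≤ y ⊔ FreeGroup.of i • y)
    have h6 := hh.cnd_anti (a := FreeGroup.of i • x)
      (le_sup_right : FreeGroup.of i • y ≤ y ⊔ FreeGroup.of i • y)
    rw [hh.cnd_smul] at h6
    linarith
  rw [Finset.sum_const, Finset.card_univ, Fintype.card_fin, nsmul_eq_mul] at h1
  linarith

theorem Poly.Fn_le_sup (hh : Poly r h) (x y : L) :
    Fn r h y ≤ Fn r h (x ⊔ y) + 2 * (r : ℝ) * cnd h x y := by
  rw [hh.Fn_sup]
  have h1 : 0 ≤ ∑ i : Fin r, cnd h (x ⊔ FreeGroup.of i • x) (y ⊔ FreeGroup.of i • y) :=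
    Finset.sum_nonneg fun i _ => hh.cnd_nonneg _ _
  have h2 := hh.cnd_nonneg x y
  linarith

/-- continuity of `F` -/
theorem Poly.Fn_le (hh : Poly r h) (x y : L) :
    Fn r h x ≤ Fn r h y + cnd h x y + 2 * (r : ℝ) * cnd h y x := by
  have h1 := hh.Fn_sup_le x y
  have h2 := hh.Fn_le_sup y x
  rw [sup_comm] at h2
  linarith

theorem Poly.Fn_congr (hh : Poly r h) {x y : L} (hxy : cnd h x y = 0) (hyx : cnd h y x = 0) :
    Fn r h x = Fn r h y := by
  have h1 := hh.Fn_le x y
  have h2 := hh.Fn_le y x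
  rw [hxy, hyx] at h1 h2
  apply le_antisymm <;> linarith

/-- the splitting lemma -/
theorem Poly.split_aux (hh : Poly r h) {a x : L} (i₀ : Fin r) {s : FreeGroup (Fin r)}
    (hi : cnd h (s • x ⊔ FreeGroup.of i₀ • s • x) (a ⊔ FreeGroup.of i₀ • a) ≤ cnd h (s • x) a) :
    Fn r h (s • x ⊔ a) ≤ Fn r h a := by
  classical
  rw [hh.Fn_sup]
  have h1 : ∑ i : Fin r, cnd h (s • x ⊔ FreeGroup.of i • s • x) (a ⊔ FreeGroup.of i • a) ≤
      ∑ i : Fin r, (2 * cnd h (s • x) a - if i = i₀ then cnd h (s • x) a else 0) := by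
    refine Finset.sum_le_sum fun i _ => ?_
    by_cases hii : i = i₀
    · subst hii
      rw [if_pos rfl]
      linarith
    · rw [if_neg hii]
      have h4 := hh.cnd_sup_le (s • x) (FreeGroup.of i • s • x) (a ⊔ FreeGroup.of i • a)
      have h5 := hh.cnd_anti (a := s • x) (le_sup_left : a ≤ a ⊔ FreeGroup.of i • a)
      have h6 := hh.cnd_anti (a := FreeGroup.of i • s • x)
        (le_sup_right : FreeGroup.of i • a ≤ a ⊔ FreeGroup.of i • a)
      rw [hh.cnd_smul] at h6
      linarith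
  rw [Finset.sum_sub_distrib, Finset.sum_const, Finset.card_univ, Fintype.card_fin, nsmul_eq_mul,
    Finset.sum_ite_eq' Finset.univ i₀, if_pos (Finset.mem_univ _)] at h1
  linarith

theorem Poly.split_of (hh : Poly r h) {a x : L} (hx : x ≤ a) (i : Fin r) :
    Fn r h (FreeGroup.of i • x ⊔ a) ≤ Fn r h a := by
  apply hh.split_aux i
  have h4 := hh.cnd_sup_le (FreeGroup.of i • x) (FreeGroup.of i • FreeGroup.of i • x)
    (a ⊔ FreeGroup.of i • a)
  have h5 := hh.cnd_anti (a := FreeGroup.of i • x)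
    (le_sup_right : FreeGroup.of i • a ≤ a ⊔ FreeGroup.of i • a)
  have h6 := hh.cnd_anti (a := FreeGroup.of i • FreeGroup.of i • x)
    (le_sup_right : FreeGroup.of i • a ≤ a ⊔ FreeGroup.of i • a)
  rw [hh.cnd_smul, poly_cnd_of_le hx] at h5
  rw [hh.cnd_smul] at h6
  linarith

theorem Poly.split_inv (hh : Poly r h) {a x : L} (hx : x ≤ a) (i : Fin r) :
    Fn r h ((FreeGroup.of i)⁻¹ • x ⊔ a) ≤ Fn r h a := by
  apply hh.split_aux i
  rw [smul_inv_smul]
  have h4 := hh.cnd_sup_le ((FreeGroup.of i)⁻¹ • x) x (a ⊔ FreeGroup.of i • a)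
  have h5 := hh.cnd_anti (a := (FreeGroup.of i)⁻¹ • x)
    (le_sup_left : a ≤ a ⊔ FreeGroup.of i • a)
  have h6 : cnd h x (a ⊔ FreeGroup.of i • a) = 0 := poly_cnd_of_le (hx.trans le_sup_left)
  linarith

theorem Poly.Fn_finset (hh : Poly r h) {a x : L} (hx : x ≤ a) (s : Finset (Fin r)) :
    Fn r h ((s.sup fun i : Fin r => FreeGroup.of i • x ⊔ (FreeGroup.of i)⁻¹ • x) ⊔ a) ≤
      Fn r h a := by
  classical
  induction s using Finset.induction_on with
  | empty => simp
  | insert i s hi ih =>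
    rw [Finset.sup_insert, sup_assoc, sup_assoc]
    refine (hh.split_of ?_ i).trans ((hh.split_inv ?_ i).trans ih)
    · exact hx.trans (le_sup_right.trans le_sup_right)
    · exact hx.trans le_sup_right

/-- adding the translates of `x` decreases `F` -/
theorem Poly.Fn_stp (hh : Poly r h) (c x : L) :
    Fn r h (c ⊔ stp r x) ≤ Fn r h (c ⊔ x) := by
  have h1 := hh.Fn_finset (le_sup_right : x ≤ c ⊔ x) Finset.univ
  have h2 : c ⊔ stp r x = (Finset.univ.sup fun i : Fin r => FreeGroup.of i • x ⊔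
      (FreeGroup.of i)⁻¹ • x) ⊔ (c ⊔ x) := by
    unfold stp
    rw [← sup_assoc, sup_comm]
  rw [h2]; exact h1

theorem Poly.Fn_pw_anti (hh : Poly r h) (c x : L) :
    Antitone fun n => Fn r h (c ⊔ pw r n x) :=
  antitone_nat_of_succ_le fun n => hh.Fn_stp c (pw r n x)

theorem Poly.Fn_pw_anti' (hh : Poly r h) (x : L) :
    Antitone fun n => Fn r h (pw r n x) := by
  have := hh.Fn_pw_anti ⊥ x
  simpa only [bot_sup_eq] using this

/-- `F(b^N) ≤ F(t)` if `b ≤ t ≤ b^N` modulo null sets -/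
theorem Poly.Fn_pw_le (hh : Poly r h) {b t : L} {N : ℕ} (h1 : cnd h b t = 0)
    (h2 : cnd h t (pw r N b) = 0) : Fn r h (pw r N b) ≤ Fn r h t := by
  have h3 := hh.Fn_pw_anti t b (Nat.zero_le N)
  have h4 : Fn r h (t ⊔ pw r 0 b) ≤ Fn r h t := by
    have := hh.Fn_sup_le b t
    rw [h1, sup_comm, add_zero] at this
    exact this
  have h5 := hh.Fn_le_sup t (pw r N b)
  rw [h2, mul_zero, add_zero] at h5
  exact h5.trans (h3.trans h4)

end facts

theorem pw_mono {h : L → ℝ} (hh : Poly r h) (a : L) : Monotone fun n => pw r n a :=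
  monotone_nat_of_le_succ fun n => poly_le_stp (pw r n a)

/-- `F` decreases along the powers, so that `fI` is the limit -/
theorem tendsto_fI {h : L → ℝ} (hh : Poly r h) (a : L) :
    Tendsto (fun n => (Fn r h (pw r n a) : EReal)) atTop (𝓝 (fI r h a)) :=
  tendsto_atTop_iInf fun _ _ hmn => EReal.coe_le_coe_iff.2 (hh.Fn_pw_anti' a hmn)

theorem fI_lt_top {h : L → ℝ} (a : L) : fI r h a < ⊤ :=
  lt_of_le_of_lt (iInf_le (fun n => (Fn r h (pw r n a) : EReal)) 0) (EReal.coe_lt_top _)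

theorem poly_fI_le_of_gen {h : L → ℝ} (hh : Poly r h) {a b : L} (ha : Gen r h a) (hb : Gen r h b) :
    fI r h b ≤ fI r h a := by
  refine le_iInf fun n => ?_
  refine EReal.le_of_forall_lt_iff_le.1 fun z hz => ?_
  set A := pw r n a with hA
  have hz' : Fn r h A < z := EReal.coe_lt_coe_iff.1 hz
  set ε := z - Fn r h A with hε
  have hε0 : 0 < ε := by rw [hε]; linarith
  obtain ⟨k, b', h1, h2, -⟩ := ha b (ε / 2) (by linarith)
  have h3 : cnd h b (pw r k A) ≤ ε / 2 := by
    have h4 := hh.cnd_triangle b b' (pw r k a)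
    have h5 := hh.cnd_anti (a := b) (hh.pw_mono_right k (show a ≤ A from poly_le_pw n a))
    linarith
  set K : ℝ := (2 * (r : ℝ) + 1) ^ k + (1 + 2 * (r : ℝ)) with hK
  have hKp : 0 < K := by rw [hK]; positivity
  obtain ⟨N, A', h6, h7, h8⟩ := hb A (ε / (2 * K)) (by positivity)
  have h9 : cnd h (pw r k A) (pw r k A') ≤ (2 * (r : ℝ) + 1) ^ k * (ε / (2 * K)) :=
    (hh.cnd_pw k A A').trans (mul_le_mul_of_nonneg_left h7.le (by positivity))
  have h10 : cnd h b (pw r k A') ≤ ε / 2 + (2 * (r : ℝ) + 1) ^ k * (ε / (2 * K)) := by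
    have := hh.cnd_triangle b (pw r k A) (pw r k A')
    linarith
  have h11 : Fn r h (b ⊔ pw r k A') ≤ Fn r h A' + cnd h b (pw r k A') := by
    have e1 := hh.Fn_sup_le b (pw r k A')
    have e2 : Fn r h (pw r k A') ≤ Fn r h A' := hh.Fn_pw_anti' A' (Nat.zero_le k)
    linarith
  have h12 : Fn r h A' ≤ Fn r h A + (1 + 2 * (r : ℝ)) * (ε / (2 * K)) := by
    have e1 := hh.Fn_le A' A
    have e2 : 2 * (r : ℝ) * cnd h A A' ≤ 2 * (r : ℝ) * (ε / (2 * K)) :=
      mul_le_mul_of_nonneg_left h7.le (by positivity)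
    linarith
  have h13 : cnd h (b ⊔ pw r k A') (pw r (k + N) b) = 0 := by
    apply le_antisymm _ (hh.cnd_nonneg _ _)
    have e1 := hh.cnd_sup_le b (pw r k A') (pw r (k + N) b)
    have e2 : cnd h b (pw r (k + N) b) = 0 := poly_cnd_of_le (poly_le_pw _ _)
    have e3 := hh.cnd_pw k A' (pw r N b)
    rw [h6, mul_zero, poly_pw_pw] at e3
    linarith
  have h14 : Fn r h (pw r (k + N) b) ≤ Fn r h (b ⊔ pw r k A') :=
    hh.Fn_pw_le (poly_cnd_of_le le_sup_left) h13
  have h15 : (2 * (r : ℝ) + 1) ^ k * (ε / (2 * K)) + (1 + 2 * (r : ℝ)) * (ε / (2 * K)) = ε / 2 := by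
    rw [← add_mul, ← hK]
    field_simp
  have h16 : Fn r h (pw r (k + N) b) ≤ z := by
    have : Fn r h A + ε = z := by rw [hε]; ring
    linarith
  exact (iInf_le _ (k + N)).trans (EReal.coe_le_coe_iff.2 h16)

/-- generator theorem -/
theorem fI_eq_of_gen {h : L → ℝ} (hh : Poly r h) {a b : L} (ha : Gen r h a) (hb : Gen r h b) :
    fI r h a = fI r h b :=
  le_antisymm (poly_fI_le_of_gen hh hb ha) (poly_fI_le_of_gen hh ha hb)

theorem tendsto_rel {h : L → ℝ} (hh : Poly r h) (c a : L) :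
    Tendsto (fun m => cnd h a (pw r m c)) atTop (𝓝 (rel r h c a)) :=
  tendsto_atTop_ciInf (fun _ _ hmn => hh.cnd_anti (pw_mono hh c hmn))
    ⟨0, by rintro _ ⟨m, rfl⟩; exact hh.cnd_nonneg _ _⟩

theorem poly_rel_smul_le {h : L → ℝ} (hh : Poly r h) (c a : L) (s : FreeGroup (Fin r))
    (hs : ∀ x : L, s • x ≤ stp r x) : rel r h c (s • a) ≤ rel r h c a := by
  refine le_of_tendsto_of_tendsto' ((tendsto_rel hh c (s • a)).comp (tendsto_add_atTop_nat 1))
    (tendsto_rel hh c a) fun m => ?_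
  have h1 := hh.cnd_anti (a := s • a) (hs (pw r m c))
  rw [hh.cnd_smul] at h1
  exact h1

theorem poly_rel {h : L → ℝ} (hh : Poly r h) (c : L) : Poly r (rel r h c) := by
  refine ⟨?_, ?_, ?_, hh.smul_sup, hh.smul_bot⟩
  · intro a b
    exact le_of_tendsto_of_tendsto' (tendsto_rel hh c a) (tendsto_rel hh c (a ⊔ b))
      fun m => hh.cnd_mono le_sup_left
  · intro a b d
    refine le_of_tendsto_of_tendsto' ((tendsto_rel hh c (a ⊔ b ⊔ d)).add (tendsto_rel hh c d))
      ((tendsto_rel hh c (a ⊔ d)).add (tendsto_rel hh c (b ⊔ d))) fun m => ?_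
    have h1 := hh.submod a b (d ⊔ pw r m c)
    unfold cnd
    rw [sup_assoc (a ⊔ b), sup_assoc a d, sup_assoc b d]
    linarith
  · intro g
    induction g using FreeGroup.induction_on with
    | C1 => intro a; rw [one_smul]
    | of i =>
      intro a
      apply le_antisymm (poly_rel_smul_le hh c a _ (poly_of_smul_le_stp i))
      have h1 := poly_rel_smul_le hh c (FreeGroup.of i • a) _ (poly_inv_smul_le_stp i)
      rwa [inv_smul_smul] at h1
    | inv_of i _ =>
      intro a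
      apply le_antisymm (poly_rel_smul_le hh c a _ (poly_inv_smul_le_stp i))
      have h1 := poly_rel_smul_le hh c ((FreeGroup.of i)⁻¹ • a) _ (poly_of_smul_le_stp i)
      rwa [smul_inv_smul] at h1
    | mul x y hx hy =>
      intro a
      rw [mul_smul, hx, hy]

/-- Abramov-Rohlin formula -/
theorem fI_add {h : L → ℝ} (hh : Poly r h) {a c : L} (hca : c ≤ a) :
    fI r h a = fI r h c + fI r (rel r h c) a := by
  have hrel := poly_rel hh c
  have hlim : ∀ n, Tendsto (fun m => (Fn r h (pw r n a ⊔ pw r m c) : EReal)) atTop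
      (𝓝 (fI r h c + (Fn r (rel r h c) (pw r n a) : EReal))) := by
    intro n
    set x := pw r n a
    have h1 : Tendsto (fun m => (1 - 2 * (r : ℝ)) * cnd h x (pw r m c) +
        ∑ i : Fin r, cnd h (x ⊔ FreeGroup.of i • x) (pw r m c ⊔ FreeGroup.of i • pw r m c)) atTop
        (𝓝 (Fn r (rel r h c) x)) := by
      refine ((tendsto_rel hh c x).const_mul _).add (tendsto_finsetSum _ fun i _ => ?_)
      refine tendsto_of_tendsto_of_tendsto_of_le_of_le
        ((tendsto_rel hh c (x ⊔ FreeGroup.of i • x)).comp (tendsto_add_atTop_nat 1))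
        (tendsto_rel hh c (x ⊔ FreeGroup.of i • x)) ?_ ?_
      · intro m
        exact hh.cnd_anti (sup_le (poly_le_stp _) (poly_of_smul_le_stp i _))
      · intro m
        exact hh.cnd_anti le_sup_left
    have h2 := (continuous_coe_real_ereal.tendsto _).comp h1
    have h3 := (EReal.continuousAt_add (p := (fI r h c, (Fn r (rel r h c) x : EReal)))
      (Or.inl (fI_lt_top c).ne) (Or.inr (EReal.coe_ne_top _))).tendsto.comp
      ((tendsto_fI hh c).prodMk_nhds h2)
    refine h3.congr fun m => ?_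
    simp only [Function.comp_apply]
    rw [← EReal.coe_add, hh.Fn_sup]
  have hge : ∀ n, fI r h a ≤ fI r h c + (Fn r (rel r h c) (pw r n a) : EReal) := by
    intro n
    refine ge_of_tendsto' (hlim n) fun m => ?_
    have h1 : Fn r h (pw r (max n m) a) ≤ Fn r h (pw r n a ⊔ pw r m c) := by
      have h2 : Fn r h (pw r m c ⊔ pw r (max n m) a) ≤ Fn r h (pw r m c ⊔ pw r n a) :=
        hh.Fn_pw_anti (pw r m c) a (le_max_left n m)
      have h3 : pw r m c ≤ pw r (max n m) a :=
        (hh.pw_mono_right m hca).trans (pw_mono hh a (le_max_right n m))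
      rwa [sup_eq_right.2 h3, sup_comm (pw r m c)] at h2
    exact (iInf_le _ (max n m)).trans (EReal.coe_le_coe_iff.2 h1)
  have hle : ∀ n, fI r h c + (Fn r (rel r h c) (pw r n a) : EReal) ≤ (Fn r h (pw r n a) : EReal) := by
    intro n
    refine le_of_tendsto' (hlim n) fun m => EReal.coe_le_coe_iff.2 ?_
    have h2 := hh.Fn_pw_anti (pw r n a) c (Nat.zero_le m)
    refine h2.trans (le_of_eq ?_)
    have : pw r n a ⊔ pw r 0 c = pw r n a := sup_eq_left.2 (hca.trans (poly_le_pw n a))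
    simp only [this]
  have h4 : Tendsto (fun n => fI r h c + (Fn r (rel r h c) (pw r n a) : EReal)) atTop
      (𝓝 (fI r h a)) :=
    tendsto_of_tendsto_of_tendsto_of_le_of_le tendsto_const_nhds (tendsto_fI hh a) hge hle
  have h5 : Tendsto (fun n => fI r h c + (Fn r (rel r h c) (pw r n a) : EReal)) atTop
      (𝓝 (fI r h c + fI r (rel r h c) a)) :=
    (EReal.continuousAt_add (p := (fI r h c, fI r (rel r h c) a))
      (Or.inl (fI_lt_top c).ne) (Or.inr (fI_lt_top a).ne)).tendsto.comp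
      (tendsto_const_nhds.prodMk_nhds (tendsto_fI hrel a))
  exact tendsto_nhds_unique h4 h5

/-- `f`-invariants are preserved by morphisms -/
theorem fI_map {L' : Type*} [SemilatticeSup L'] [OrderBot L'] [MulAction (FreeGroup (Fin r)) L']
    (φ : L → L') (hsup : ∀ a b, φ (a ⊔ b) = φ a ⊔ φ b) (hbot : φ ⊥ = ⊥)
    (hsmul : ∀ (g : FreeGroup (Fin r)) a, φ (g • a) = g • φ a)
    {h : L → ℝ} {h' : L' → ℝ} (hh : ∀ a, h' (φ a) = h a) (a : L) :
    fI r h' (φ a) = fI r h a := by
  have hstp : ∀ x : L, stp r (φ x) = φ (stp r x) := by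
    intro x
    unfold stp
    rw [hsup, Finset.apply_sup_eq_sup_comp φ hsup hbot]
    simp only [Function.comp_def, hsup, hsmul]
  have hpw : ∀ n, pw r n (φ a) = φ (pw r n a) := by
    intro n
    induction n with
    | zero => rfl
    | succ n ih =>
      change stp r (pw r n (φ a)) = φ (stp r (pw r n a))
      rw [ih, hstp]
  have hFn : ∀ x : L, Fn r h' (φ x) = Fn r h x := by
    intro x
    unfold Fn
    simp only [← hsmul, ← hsup, hh]
  unfold fI
  simp only [hpw, hFn]

end Pool.Agent.Lib.MP_46d37e_an
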