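import Pool.Agent.Lib.MP_46d37e_an.Approx
import Pool.Agent.Lib.MP_46d37e_an.Fiber
import Pool.Agent.Lib.MP_46d37e_an.Ball

/-!
# The addition formula for measure preserving systems
-/

set_option autoImplicit false
set_option linter.unusedSectionVars false

namespace Pool.Agent.Lib.MP_46d37e_an

open MeasureTheory Filter Topology
open scoped ENNReal symmDiff

/-! ### Generating partitions -/

section Gen

variable {r : ℕ} {X : Type*} [mX : MeasurableSpace X]
    [MulAction (FreeGroup (Fin r)) X] [MeasurableConstSMul (FreeGroup (Fin r)) X]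
    (μ : Measure X) [IsProbabilityMeasure μ] [SMulInvariantMeasure (FreeGroup (Fin r)) X μ]

theorem cnd_eq_zero_of_le {h : FP X → ℝ} {A B : FP X} (hAB : A ≤ B) : cnd h A B = 0 := by
  unfold cnd
  rw [sup_eq_right.2 hAB, sub_self]

theorem generating_pw {ι : Type*} [Finite ι] (α : X → ι) (hα : sg α ≤ mX)
    (gα : Generating r μ α) (E : Set X) (hE : MeasurableSet E) :
    ∃ E' : Set X, MeasurableSet[⨆ n, (pw r n (mkFP α hα)).1] E' ∧ μ (E ∆ E') = 0 := by
  rw [iSup_pw_val]
  exact gα E hE

theorem gen_of_generating {ι : Type*} [Finite ι] (α : X → ι) (hα : sg α ≤ mX)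
    (gα : Generating r μ α) : Gen r (hFP μ) (mkFP α hα) := by
  intro A δ hδ
  obtain ⟨n, A', h1, h2, h3⟩ := exists_approx (𝓖 := mX) μ le_rfl
    (fun n => pw r n (mkFP α hα)) (pw_mono (poly_hFP μ r) _) (generating_pw μ α hα gα) A A.2.1 hδ
  exact ⟨n, A', cnd_eq_zero_of_le h1, h2, h3⟩

/-- two generating partitions have the same f-invariant -/
theorem fI_eq_of_generating
    {ι κ : Type*} [Finite ι] [Finite κ] (α : X → ι) (hα : sg α ≤ mX) (β : X → κ) (hβ : sg β ≤ mX)
    (gα : Generating r μ α) (gβ : Generating r μ β) :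
    fI r (hFP μ) (mkFP α hα) = fI r (hFP μ) (mkFP β hβ) :=
  fI_eq_of_gen (poly_hFP μ r) (gen_of_generating μ α hα gα) (gen_of_generating μ β hβ gβ)

end Gen

/-! ### Pull-backs -/

section Pull

variable {r : ℕ} {Z X : Type*} [mZ : MeasurableSpace Z] [mX : MeasurableSpace X]
    [MulAction (FreeGroup (Fin r)) Z] [MeasurableConstSMul (FreeGroup (Fin r)) Z]
    [MulAction (FreeGroup (Fin r)) X] [MeasurableConstSMul (FreeGroup (Fin r)) X]

theorem pull_finset_sup (T : Z → X) (hT : Measurable T) {ι : Type*} (s : Finset ι)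
    (P : ι → FP X) : pull T hT (s.sup P) = s.sup fun i => pull T hT (P i) := by
  classical
  induction s using Finset.induction_on with
  | empty => simp [pull_bot]
  | insert a s ha ih => rw [Finset.sup_insert, Finset.sup_insert, pull_sup, ih]

theorem pull_pw (T : Z → X) (hT : Measurable T)
    (hTG : ∀ (g : FreeGroup (Fin r)) x, T (g • x) = g • T x) (P : FP X) (n : ℕ) :
    pull T hT (pw r n P) = pw r n (pull T hT P) := by
  induction n with
  | zero => rfl
  | succ n ih =>
    rw [pw, pw, ← ih, stp, stp, pull_sup, pull_finset_sup]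
    congr 1
    refine Finset.sup_congr rfl fun i _ => ?_
    rw [pull_sup, pull_smul T hT hTG, pull_smul T hT hTG]

theorem pull_le_comap (T : Z → X) (hT : Measurable T) (P : FP X) :
    (pull T hT P).1 ≤ MeasurableSpace.comap T mX :=
  MeasurableSpace.comap_mono P.2.1

theorem pull_mono (T : Z → X) (hT : Measurable T) {P Q : FP X} (h : P ≤ Q) :
    pull T hT P ≤ pull T hT Q :=
  MeasurableSpace.comap_mono h

/-- the pull-back of a generating partition generates the pull-back sigma-algebra -/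
theorem comap_le_eventually {κ : Measure Z} {μ : Measure X} [IsProbabilityMeasure μ]
    [SMulInvariantMeasure (FreeGroup (Fin r)) X μ] (T : Z → X) (hT : MeasurePreserving T κ μ)
    (hTG : ∀ (g : FreeGroup (Fin r)) x, T (g • x) = g • T x)
    {ι : Type*} [Finite ι] (α : X → ι) (hα : sg α ≤ mX) (gα : Generating r μ α) :
    MeasurableSpace.comap T mX ≤ eventuallyMeasurableSpace
      (⨆ n, (pw r n (pull T hT.measurable (mkFP α hα))).1) (ae κ) := by
  rintro _ ⟨E, hE, rfl⟩
  obtain ⟨E', hE', h0⟩ := generating_pw μ α hα gα E hE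
  refine ⟨T ⁻¹' E', ?_, ?_⟩
  · have h1 : (⨆ n, (pw r n (pull T hT.measurable (mkFP α hα))).1) =
        MeasurableSpace.comap T (⨆ n, (pw r n (mkFP α hα)).1) := by
      rw [MeasurableSpace.comap_iSup]
      refine iSup_congr fun n => ?_
      rw [← pull_pw T hT.measurable hTG]
      rfl
    rw [h1]
    exact ⟨E', hE', rfl⟩
  · exact hT.quasiMeasurePreserving.preimage_ae_eq (measure_symmDiff_eq_zero_iff.1 h0)

end Pull

/-! ### The product system -/

section Prod

variable {r : ℕ} {X Y N : Type*} [mX : MeasurableSpace X] [mY : MeasurableSpace Y]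
    [mN : MeasurableSpace N]
    [MulAction (FreeGroup (Fin r)) X] [MeasurableConstSMul (FreeGroup (Fin r)) X]
    [MulAction (FreeGroup (Fin r)) Y] [MeasurableConstSMul (FreeGroup (Fin r)) Y]
    [MulAction (FreeGroup (Fin r)) N] [MeasurableConstSMul (FreeGroup (Fin r)) N]
    (μ : Measure X) [IsProbabilityMeasure μ] [SMulInvariantMeasure (FreeGroup (Fin r)) X μ]
    (ν : Measure Y) [IsProbabilityMeasure ν] [SMulInvariantMeasure (FreeGroup (Fin r)) Y ν]
    (lam : Measure N) [IsProbabilityMeasure lam]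
    [SMulInvariantMeasure (FreeGroup (Fin r)) N lam]

instance prodConstSMul : MeasurableConstSMul (FreeGroup (Fin r)) (X × N) :=
  ⟨fun g => (measurable_const_smul (α := X) g).prodMap (measurable_const_smul (α := N) g)⟩

instance prodInvariant : SMulInvariantMeasure (FreeGroup (Fin r)) (X × N) (μ.prod lam) :=
  ⟨fun g s hs => ((measurePreserving_smul g μ).prod (measurePreserving_smul g lam)).measure_preimage
    hs.nullMeasurableSet⟩

/-- every finite sub-sigma-algebra is generated by a finite partition -/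
theorem exists_mkFP {Ω : Type*} [mΩ : MeasurableSpace Ω] (P : FP Ω) :
    ∃ (k : ℕ) (a : Ω → Fin k) (ha : sg a ≤ mΩ), mkFP a ha = P := by
  obtain ⟨m, h, k, a, ha⟩ := P
  exact ⟨k, a, by rw [ha]; exact h, Subtype.ext ha⟩

theorem rel_snd (c : FP X) (P : FP N) :
    rel r (hFP (μ.prod lam)) (pull (Prod.fst : X × N → X) measurable_fst c)
      (pull Prod.snd measurable_snd P) = hFP lam P := by
  have h1 : ∀ m, cnd (hFP (μ.prod lam)) (pull Prod.snd measurable_snd P)
      (pw r m (pull (Prod.fst : X × N → X) measurable_fst c)) = hFP lam P := by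
    intro m
    rw [← pull_pw (Prod.fst : X × N → X) measurable_fst (fun _ _ => rfl), cnd, sup_comm,
      hFP_sup_of_indep, hFP_pull (μ.prod lam) lam Prod.snd measurePreserving_snd P]
    · ring
    · rintro _ _ ⟨s, hs, rfl⟩ ⟨t, ht, rfl⟩
      have hs' := (pw r m c).2.1 _ hs
      have ht' := P.2.1 _ ht
      rw [← Set.prod_eq, Measure.prod_prod]
      rw [← Set.prod_univ, ← Set.univ_prod, Measure.prod_prod, Measure.prod_prod, measure_univ,
        measure_univ, mul_one, one_mul]
  unfold rel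
  simp_rw [h1]
  exact ciInf_const

end Prod

section Main

variable {r : ℕ} {X Y N : Type*} [mX : MeasurableSpace X] [mY : MeasurableSpace Y]
    [mN : MeasurableSpace N]
    [MulAction (FreeGroup (Fin r)) X] [MeasurableConstSMul (FreeGroup (Fin r)) X]
    [MulAction (FreeGroup (Fin r)) Y] [MeasurableConstSMul (FreeGroup (Fin r)) Y]
    [MulAction (FreeGroup (Fin r)) N] [MeasurableConstSMul (FreeGroup (Fin r)) N]
    (μ : Measure X) [IsProbabilityMeasure μ] [SMulInvariantMeasure (FreeGroup (Fin r)) X μ]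
    (ν : Measure Y) [IsProbabilityMeasure ν] [SMulInvariantMeasure (FreeGroup (Fin r)) Y ν]
    (lam : Measure N) [IsProbabilityMeasure lam]
    [SMulInvariantMeasure (FreeGroup (Fin r)) N lam]

theorem rel_psi
    (π : X → Y) (hπ : MeasurePreserving π μ ν)
    (hπG : ∀ (g : FreeGroup (Fin r)) x, π (g • x) = g • π x)
    (ψ : X × N → X) (hψ : MeasurePreserving ψ (μ.prod lam) μ)
    (hπψ : ∀ x n, π (ψ (x, n)) = π x)
    (hker : ∀ E : Set X, MeasurableSet E →
      Measurable[MeasurableSpace.comap π mY] fun x => lam {n | ψ (x, n) ∈ E})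
    {ι κ : Type*} [Finite ι] [Finite κ]
    (α : X → ι) (hα : sg α ≤ mX) (gα : Generating r μ α)
    (γ : Y → κ) (hγ : sg γ ≤ mY) (gγ : Generating r ν γ) (P : FP X) :
    rel r (hFP (μ.prod lam)) (pull (Prod.fst : X × N → X) measurable_fst (mkFP α hα))
      (pull ψ hψ.measurable P) = rel r (hFP μ) (pull π hπ.measurable (mkFP γ hγ)) P := by
  obtain ⟨k, η, hη, rfl⟩ := exists_mkFP P
  have hηm : ∀ i, MeasurableSet (η ⁻¹' {i}) := fun i => hη _ ⟨{i}, trivial, rfl⟩
  set p : Fin k → X → ℝ := fun i x => (lam {n | ψ (x, n) ∈ η ⁻¹' {i}}).toReal with hp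
  have hp0 : ∀ i x, 0 ≤ p i x := fun i x => ENNReal.toReal_nonneg
  have hp1 : ∀ i x, p i x ≤ 1 := fun i x => by
    have : lam {n | ψ (x, n) ∈ η ⁻¹' {i}} ≤ 1 := prob_le_one
    exact ENNReal.toReal_le_of_le_ofReal zero_le_one (by simpa using this)
  have hpm : ∀ i, Measurable[MeasurableSpace.comap π mY] (p i) := fun i =>
    (hker _ (hηm i)).ennreal_toReal
  have hπle : MeasurableSpace.comap π mY ≤ mX := hπ.measurable.comap_le
  have hpm' : ∀ i, Measurable (p i) := fun i => (hpm i).mono hπle le_rfl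
  -- the basic integral
  have hbase : ∀ i (D : Set X), MeasurableSet D → ∫ x in D, p i x ∂μ =
      (μ.prod lam).real ((Prod.fst : X × N → X) ⁻¹' D ∩ ψ ⁻¹' (η ⁻¹' {i})) := by
    intro i D hD
    have hS : MeasurableSet ((Prod.fst : X × N → X) ⁻¹' D ∩ ψ ⁻¹' (η ⁻¹' {i})) :=
      (measurable_fst hD).inter (hψ.measurable (hηm i))
    rw [measureReal_def, Measure.prod_apply hS]
    have h1 : ∀ x, lam (Prod.mk x ⁻¹' ((Prod.fst : X × N → X) ⁻¹' D ∩ ψ ⁻¹' (η ⁻¹' {i}))) =
        D.indicator (fun x => lam {n | ψ (x, n) ∈ η ⁻¹' {i}}) x := by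
      intro x
      by_cases hx : x ∈ D
      · rw [Set.indicator_of_mem hx]
        congr 1
        ext n
        simp [hx]
      · rw [Set.indicator_of_notMem hx]
        have : Prod.mk x ⁻¹' ((Prod.fst : X × N → X) ⁻¹' D ∩ ψ ⁻¹' (η ⁻¹' {i})) = ∅ := by
          ext n
          simp [hx]
        rw [this, measure_empty]
    simp_rw [h1]
    rw [lintegral_indicator hD]
    rw [integral_eq_lintegral_of_nonneg_ae (ae_of_all _ (hp0 i))
      (hpm' i).aestronglyMeasurable]
    congr 1
    refine lintegral_congr fun x => ?_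
    rw [hp]
    exact ENNReal.ofReal_toReal (measure_ne_top _ _)
  -- on `X`
  have hX := fiber_entropy (𝓖 := MeasurableSpace.comap π mY) μ hπle
    (fun n => pw r n (pull π hπ.measurable (mkFP γ hγ))) (pw_mono (poly_hFP μ r) _)
    (fun n => by
      rw [← pull_pw π hπ.measurable hπG]
      exact pull_le_comap π hπ.measurable _)
    (fun E hE => by
      obtain ⟨E', h1, h2⟩ := comap_le_eventually π hπ hπG γ hγ gγ E hE
      exact ⟨E', h1, measure_symmDiff_eq_zero_iff.2 h2⟩)
    η hη p hpm hp0 hp1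
    (fun i D hD => by
      obtain ⟨D', hD', rfl⟩ := hD
      rw [hbase i _ (hπ.measurable hD')]
      have h1 : (Prod.fst : X × N → X) ⁻¹' (π ⁻¹' D') ∩ ψ ⁻¹' (η ⁻¹' {i}) =
          ψ ⁻¹' (π ⁻¹' D' ∩ η ⁻¹' {i}) := by
        ext ⟨x, n⟩
        simp [hπψ]
      rw [h1, measureReal_def, measureReal_def, hψ.measure_preimage
        ((hπ.measurable hD').inter (hηm i)).nullMeasurableSet])
  -- on `X × N`
  have hfst : MeasurableSpace.comap (Prod.fst : X × N → X) mX ≤
      (Prod.instMeasurableSpace : MeasurableSpace (X × N)) := measurable_fst.comap_le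
  have hηψ : sg (fun z => η (ψ z)) ≤ (Prod.instMeasurableSpace : MeasurableSpace (X × N)) := by
    rintro _ ⟨t, -, rfl⟩
    exact hψ.measurable (hη _ ⟨t, trivial, rfl⟩)
  have hZ := fiber_entropy (𝓖 := MeasurableSpace.comap (Prod.fst : X × N → X) mX) (μ.prod lam)
    hfst
    (fun n => pw r n (pull (Prod.fst : X × N → X) measurable_fst (mkFP α hα)))
    (pw_mono (poly_hFP (μ.prod lam) r) _)
    (fun n => by
      rw [← pull_pw (Prod.fst : X × N → X) measurable_fst (fun _ _ => rfl)]
      exact pull_le_comap _ measurable_fst _)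
    (fun E hE => by
      obtain ⟨E', h1, h2⟩ := comap_le_eventually (Prod.fst : X × N → X)
        (measurePreserving_fst (μ := μ) (ν := lam)) (fun _ _ => rfl) α hα gα E hE
      exact ⟨E', h1, measure_symmDiff_eq_zero_iff.2 h2⟩)
    (fun z => η (ψ z)) hηψ (fun i z => p i z.1)
    (fun i => (hpm' i).comp (comap_measurable _))
    (fun i z => hp0 i z.1) (fun i z => hp1 i z.1)
    (fun i D hD => by
      obtain ⟨D', hD', rfl⟩ := hD
      rw [show (fun z => η (ψ z)) ⁻¹' {i} = ψ ⁻¹' (η ⁻¹' {i}) from rfl, ← hbase i D' hD']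
      have h2 := setIntegral_map (μ := μ.prod lam) (g := (Prod.fst : X × N → X)) (f := p i) hD'
        (hpm' i).aestronglyMeasurable measurable_fst.aemeasurable
      rw [(measurePreserving_fst (μ := μ) (ν := lam)).map_eq] at h2
      exact h2.symm)
  have hmk : pull ψ hψ.measurable (mkFP η hη) = mkFP (fun z => η (ψ z)) hηψ :=
    pull_mk ψ hψ.measurable η hη hηψ
  have hint : ∫ z, ∑ i, Real.negMulLog (p i z.1) ∂(μ.prod lam) =
      ∫ x, ∑ i, Real.negMulLog (p i x) ∂μ := by
    have hm : Measurable fun x => ∑ i, Real.negMulLog (p i x) :=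
      Finset.measurable_fun_sum _ fun i _ => Real.continuous_negMulLog.measurable.comp (hpm' i)
    have h2 := integral_map (μ := μ.prod lam) (φ := (Prod.fst : X × N → X))
      (f := fun x => ∑ i, Real.negMulLog (p i x)) measurable_fst.aemeasurable
      hm.aestronglyMeasurable
    rw [(measurePreserving_fst (μ := μ) (ν := lam)).map_eq] at h2
    exact h2.symm
  rw [hint] at hZ
  rw [hmk]
  exact tendsto_nhds_unique (tendsto_rel (poly_hFP (μ.prod lam) r) _ _)
    (hZ.trans (by rw [← tendsto_nhds_unique hX (tendsto_rel (poly_hFP μ r) _ _)]))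

/-- The pull-backs to `X × N` of generating partitions of `X` (under the first coordinate) and
under a second map `T` generate, if the sigma-algebra of `X × N` is generated by both maps. -/
theorem gen_rel {W : Type*} [mW : MeasurableSpace W]
    [MulAction (FreeGroup (Fin r)) W] [MeasurableConstSMul (FreeGroup (Fin r)) W]
    (ρ : Measure W) [IsProbabilityMeasure ρ] [SMulInvariantMeasure (FreeGroup (Fin r)) W ρ]
    (T : X × N → W) (hT : MeasurePreserving T (μ.prod lam) ρ)
    (hTG : ∀ (g : FreeGroup (Fin r)) z, T (g • z) = g • T z)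
    (hle : (Prod.instMeasurableSpace : MeasurableSpace (X × N)) ≤
      MeasurableSpace.comap Prod.fst mX ⊔ MeasurableSpace.comap T mW)
    {ι κ : Type*} [Finite ι] [Finite κ]
    (α : X → ι) (hα : sg α ≤ mX) (gα : Generating r μ α)
    (β : W → κ) (hβ : sg β ≤ mW) (gβ : Generating r ρ β) :
    Gen r (rel r (hFP (μ.prod lam)) (pull (Prod.fst : X × N → X) measurable_fst (mkFP α hα)))
      (pull T hT.measurable (mkFP β hβ)) := by
  intro A δ hδ
  set κ' := μ.prod lam with hκ'
  set a := pull (Prod.fst : X × N → X) measurable_fst (mkFP α hα) with ha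
  set b := pull T hT.measurable (mkFP β hβ) with hb
  have hP := poly_hFP κ' r
  have hPr := poly_rel hP a
  set m : ℕ → FP (X × N) := fun n => pw r n a ⊔ pw r n b with hm
  have hmono : Monotone m := fun i j hij => sup_le_sup (pw_mono hP a hij) (pw_mono hP b hij)
  have h1 : (Prod.instMeasurableSpace : MeasurableSpace (X × N)) ≤
      eventuallyMeasurableSpace (⨆ n, (m n).1) (ae κ') := by
    refine hle.trans (sup_le ?_ ?_)
    · refine (comap_le_eventually (Prod.fst : X × N → X)
        (measurePreserving_fst (μ := μ) (ν := lam)) (fun _ _ => rfl) α hα gα).trans ?_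
      rintro s ⟨t, ht, hst⟩
      refine ⟨t, ?_, hst⟩
      exact (iSup_mono fun n => (le_sup_left : (pw r n a).1 ≤ (pw r n a).1 ⊔ (pw r n b).1)) _ ht
    · refine (comap_le_eventually T hT hTG β hβ gβ).trans ?_
      rintro s ⟨t, ht, hst⟩
      refine ⟨t, ?_, hst⟩
      exact (iSup_mono fun n => (le_sup_right : (pw r n b).1 ≤ (pw r n a).1 ⊔ (pw r n b).1)) _ ht
  obtain ⟨n, A', hA1, hA2, hA3⟩ := exists_approx
    (𝓖 := (Prod.instMeasurableSpace : MeasurableSpace (X × N))) κ' le_rfl m hmono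
    (fun E hE => by
      obtain ⟨E', h2, h3⟩ := h1 E hE
      exact ⟨E', h2, measure_symmDiff_eq_zero_iff.2 h3⟩) A A.2.1 hδ
  have hrel_le : ∀ P Q : FP (X × N), cnd (rel r (hFP κ') a) P Q ≤ cnd (hFP κ') P Q := by
    intro P Q
    have t1 := (tendsto_rel hP a (P ⊔ Q)).sub (tendsto_rel hP a Q)
    refine le_of_tendsto' t1 fun k => ?_
    have h2 := hP.submod P (pw r k a) Q
    unfold cnd
    rw [show P ⊔ Q ⊔ pw r k a = P ⊔ pw r k a ⊔ Q from sup_right_comm _ _ _,
      show Q ⊔ pw r k a = pw r k a ⊔ Q from sup_comm _ _]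
    linarith
  refine ⟨n, A', ?_, (hrel_le _ _).trans_lt hA2, (hrel_le _ _).trans_lt hA3⟩
  have e1 : rel r (hFP κ') a (pw r n a ⊔ pw r n b) = rel r (hFP κ') a (pw r n b) := by
    refine tendsto_nhds_unique (tendsto_rel hP a _) ((tendsto_rel hP a (pw r n b)).congr' ?_)
    filter_upwards [eventually_ge_atTop n] with k hk
    have hk' : pw r n a ≤ pw r k a := pw_mono hP a hk
    unfold cnd
    rw [show pw r n a ⊔ pw r n b ⊔ pw r k a = pw r n b ⊔ pw r k a by
      rw [sup_comm (pw r n a), sup_assoc, sup_eq_right.2 hk']]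
  have e2 : rel r (hFP κ') a (A' ⊔ pw r n b) ≤ rel r (hFP κ') a (pw r n a ⊔ pw r n b) := by
    have h3 := hPr.mono (A' ⊔ pw r n b) (pw r n a ⊔ pw r n b)
    rwa [sup_eq_right.2 (sup_le hA1 le_sup_right)] at h3
  have e3 : rel r (hFP κ') a (pw r n b) ≤ rel r (hFP κ') a (A' ⊔ pw r n b) := by
    have h3 := hPr.mono (pw r n b) A'
    rwa [sup_comm] at h3
  unfold cnd
  linarith

/-- The addition formula for an abstract extension `π : X → Y` with fibre `N`. -/
theorem system_formula
    (π : X → Y) (hπ : MeasurePreserving π μ ν)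
    (hπG : ∀ (g : FreeGroup (Fin r)) x, π (g • x) = g • π x)
    (ψ : X × N → X) (hψ : MeasurePreserving ψ (μ.prod lam) μ)
    (hψG : ∀ (g : FreeGroup (Fin r)) x n, ψ (g • x, g • n) = g • ψ (x, n))
    (hπψ : ∀ x n, π (ψ (x, n)) = π x)
    (hker : ∀ E : Set X, MeasurableSet E →
      Measurable[MeasurableSpace.comap π mY] fun x => lam {n | ψ (x, n) ∈ E})
    (hrec : (Prod.instMeasurableSpace : MeasurableSpace (X × N)) ≤
      MeasurableSpace.comap Prod.fst mX ⊔ MeasurableSpace.comap ψ mX)
    {ι κ κ' : Type*} [Finite ι] [Finite κ] [Finite κ']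
    (α : X → ι) (hα : sg α ≤ mX) (gα : Generating r μ α)
    (γ : Y → κ) (hγ : sg γ ≤ mY) (gγ : Generating r ν γ)
    (β : N → κ') (hβ : sg β ≤ mN) (gβ : Generating r lam β) :
    fI r (hFP μ) (mkFP α hα) = fI r (hFP ν) (mkFP γ hγ) + fI r (hFP lam) (mkFP β hβ) := by
  -- replace `α` by `α ∨ γ ∘ π`
  set αp : X → ι × κ := fun x => (α x, γ (π x)) with hαp
  have hγπ : sg (fun x => γ (π x)) ≤ mX := by
    rintro _ ⟨t, -, rfl⟩
    exact hπ.measurable (hγ _ ⟨t, trivial, rfl⟩)
  have hαps : sg αp ≤ mX := by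
    rw [hαp, sg_prod]
    exact sup_le hα hγπ
  have gαp : Generating r μ αp := by
    intro E hE
    obtain ⟨E', h1, h2⟩ := gα E hE
    have hmono : (⨆ g : FreeGroup (Fin r), MeasurableSpace.comap (trans g α) ⊤) ≤
        ⨆ g : FreeGroup (Fin r), MeasurableSpace.comap (trans g αp) ⊤ := by
      refine iSup_mono fun g => ?_
      rintro _ ⟨t, -, rfl⟩
      exact ⟨Prod.fst ⁻¹' t, trivial, rfl⟩
    exact ⟨E', hmono _ h1, h2⟩
  rw [fI_eq_of_generating μ α hα αp hαps gα gαp]
  -- Abramov-Rohlin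
  have hle : pull π hπ.measurable (mkFP γ hγ) ≤ mkFP αp hαps := by
    rw [pull_mk π hπ.measurable γ hγ hγπ]
    change sg (fun x => γ (π x)) ≤ sg αp
    rw [hαp, sg_prod]
    exact le_sup_right
  rw [fI_add (poly_hFP μ r) hle]
  -- the factor
  rw [fI_map (r := r) (pull π hπ.measurable) (pull_sup π hπ.measurable)
    (pull_bot π hπ.measurable) (pull_smul π hπ.measurable hπG)
    (h := hFP ν) (h' := hFP μ) (fun P => hFP_pull μ ν π hπ P)]
  congr 1
  -- the fibre
  rw [← fI_map (r := r) (pull ψ hψ.measurable) (pull_sup ψ hψ.measurable)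
    (pull_bot ψ hψ.measurable) (pull_smul ψ hψ.measurable (fun g z => hψG g z.1 z.2))
    (h' := rel r (hFP (μ.prod lam))
      (pull (Prod.fst : X × N → X) measurable_fst (mkFP α hα)))
    (fun P => rel_psi μ ν lam π hπ hπG ψ hψ hπψ hker α hα gα γ hγ gγ P)]
  rw [← fI_map (r := r) (pull (Prod.snd : X × N → N) measurable_snd)
    (pull_sup _ measurable_snd) (pull_bot _ measurable_snd)
    (pull_smul _ measurable_snd (fun _ _ => rfl)) (h := hFP lam)
    (h' := rel r (hFP (μ.prod lam))
      (pull (Prod.fst : X × N → X) measurable_fst (mkFP α hα)))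
    (fun P => rel_snd μ lam _ P)]
  exact fI_eq_of_gen (poly_rel (poly_hFP (μ.prod lam) r) _)
    (gen_rel μ lam μ ψ hψ (fun g z => hψG g z.1 z.2) hrec α hα gα αp hαps gαp)
    (gen_rel μ lam lam Prod.snd measurePreserving_snd (fun _ _ => rfl) le_rfl α hα gα β hβ gβ)

end Main

end Pool.Agent.Lib.MP_46d37e_an
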